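import Mathlib

set_option autoImplicit false

namespace Pool.Agent.H77.Loz

open Real

abbrev E := EuclideanSpace ℝ (Fin 2)

/-- first lattice coordinate -/
noncomputable def ca (x : E) : ℝ := x 0 - x 1 / √3
/-- second lattice coordinate -/
noncomputable def cb (x : E) : ℝ := 2 * x 1 / √3
/-- the point with given lattice coordinates -/
noncomputable def mk (a b : ℝ) : E := !₂[a + b / 2, √3 / 2 * b]

lemma s3pos : (0 : ℝ) < √3 := by positivity
lemma s3ne : (√3 : ℝ) ≠ 0 := s3pos.ne'
lemma s3sq : (√3 : ℝ) * √3 = 3 := Real.mul_self_sqrt (by norm_num)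

@[simp] lemma mk_zero (a b : ℝ) : mk a b 0 = a + b / 2 := by simp [mk]
@[simp] lemma mk_one (a b : ℝ) : mk a b 1 = √3 / 2 * b := by simp [mk]

@[simp] lemma ca_mk (a b : ℝ) : ca (mk a b) = a := by
  have := s3ne
  simp only [ca, mk_zero, mk_one]
  field_simp
  ring
@[simp] lemma cb_mk (a b : ℝ) : cb (mk a b) = b := by
  have := s3ne
  simp only [cb, mk_one]
  field_simp

lemma ext' {x y : E} (ha : ca x = ca y) (hb : cb x = cb y) : x = y := by
  have h3 := s3ne
  have h1 : x 1 = y 1 := by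
    simp only [cb] at hb
    field_simp at hb
    linarith
  have h0 : x 0 = y 0 := by
    simp only [ca, h1] at ha
    linarith
  ext i
  fin_cases i
  · exact h0
  · exact h1

@[simp] lemma mk_ca_cb (x : E) : mk (ca x) (cb x) = x := ext' (by simp) (by simp)

/-- the quadratic form of the triangular lattice -/
def Q (a b : ℝ) : ℝ := a ^ 2 + a * b + b ^ 2

lemma dist_sq (x y : E) : dist x y ^ 2 = Q (ca x - ca y) (cb x - cb y) := by
  have h3 := s3ne
  have hi : (√3 : ℝ)⁻¹ * (√3)⁻¹ = 1 / 3 := by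
    rw [← mul_inv, s3sq]; norm_num
  rw [EuclideanSpace.dist_eq, Real.sq_sqrt (by positivity)]
  simp only [Fin.sum_univ_two, Real.dist_eq, sq_abs, Q, ca, cb, div_eq_mul_inv]
  linear_combination (-(3 : ℝ) * (x 1 - y 1) ^ 2) * hi

lemma dist_eq_iff (x y x' y' : E) :
    dist x y = dist x' y' ↔ Q (ca x - ca y) (cb x - cb y) = Q (ca x' - ca y') (cb x' - cb y') := by
  rw [← dist_sq, ← dist_sq]
  constructor
  · intro h; rw [h]
  · intro h
    exact (pow_left_inj₀ dist_nonneg dist_nonneg (by norm_num)).1 h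

end Pool.Agent.H77.Loz
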