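import Pool.Agent.H77.Loz.Tiling

set_option autoImplicit false

namespace Pool.Agent.H77.Loz

/-- periodic type function with period `N` in both directions, read off the base three digits of `W` -/
def tauW (N W : ℕ) (u v : ℤ) : ℕ := W / 3 ^ (N * (u % N).toNat + (v % N).toNat) % 3

lemma tauW_congr {N W : ℕ} {u v u' v' : ℤ} (hu : u % N = u' % N) (hv : v % N = v' % N) :
    tauW N W u v = tauW N W u' v' := by
  unfold tauW; rw [hu, hv]

lemma tauW_lt (N W : ℕ) (u v : ℤ) : tauW N W u v < 3 := Nat.mod_lt _ (by norm_num)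

def goodc (τ : ℤ → ℤ → ℕ) (u v : ℤ) : Bool :=
  (τ u v == 0 || τ (u + 1) v == 1 || τ u (v + 1) == 2) && !(τ u v == 0 && τ (u + 1) v == 1)
    && !(τ u v == 0 && τ u (v + 1) == 2) && !(τ (u + 1) v == 1 && τ u (v + 1) == 2)

def goodb (N W : ℕ) : Bool :=
  (List.range N).all fun u => (List.range N).all fun v => goodc (tauW N W) u v

lemma reduce {N : ℕ} (hN : 0 < N) (u : ℤ) : ∃ u0 : ℕ, u0 < N ∧ ∃ a : ℤ, u = u0 + N * a := by
  refine ⟨(u % N).toNat, ?_, u / N, ?_⟩
  · have h1 := Int.emod_nonneg u (by omega : (N : ℤ) ≠ 0)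
    have h2 := Int.emod_lt_of_pos u (by omega : (0 : ℤ) < N)
    omega
  · have h1 := Int.emod_nonneg u (by omega : (N : ℤ) ≠ 0)
    rw [Int.toNat_of_nonneg h1]
    exact (Int.emod_add_mul_ediv u N).symm

lemma good_of_check {N W : ℕ} (hN : 0 < N) (h : goodb N W = true) : Good (tauW N W) := by
  have key : ∀ u v : ℤ, goodc (tauW N W) u v = true := by
    intro u v
    obtain ⟨u0, hu0, a, rfl⟩ := reduce hN u
    obtain ⟨v0, hv0, b, rfl⟩ := reduce hN v
    have h1 : goodc (tauW N W) u0 v0 = true := by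
      unfold goodb at h
      rw [List.all_eq_true] at h
      have := h u0 (List.mem_range.2 hu0)
      rw [List.all_eq_true] at this
      exact this v0 (List.mem_range.2 hv0)
    have e1 : tauW N W (u0 + N * a) (v0 + N * b) = tauW N W u0 v0 :=
      tauW_congr (by simp) (by simp)
    have e2 : tauW N W (u0 + N * a + 1) (v0 + N * b) = tauW N W (u0 + 1) v0 :=
      tauW_congr (by rw [show (u0 : ℤ) + N * a + 1 = u0 + 1 + N * a by ring]; simp) (by simp)
    have e3 : tauW N W (u0 + N * a) (v0 + N * b + 1) = tauW N W u0 (v0 + 1) :=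
      tauW_congr (by simp) (by rw [show (v0 : ℤ) + N * b + 1 = v0 + 1 + N * b by ring]; simp)
    unfold goodc at *
    rw [e1, e2, e3]
    exact h1
  have key2 : ∀ u v : ℤ, (tauW N W u v = 0 ∨ tauW N W (u + 1) v = 1 ∨ tauW N W u (v + 1) = 2) ∧
      ¬ (tauW N W u v = 0 ∧ tauW N W (u + 1) v = 1) ∧
      ¬ (tauW N W u v = 0 ∧ tauW N W u (v + 1) = 2) ∧
      ¬ (tauW N W (u + 1) v = 1 ∧ tauW N W u (v + 1) = 2) := by
    intro u v
    have := key u v
    unfold goodc at this
    simp only [Bool.and_eq_true, Bool.or_eq_true, beq_iff_eq, Bool.not_eq_true',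
      Bool.and_eq_false_iff, beq_eq_false_iff_ne, ne_eq] at this
    tauto
  exact ⟨tauW_lt N W, fun u v => (key2 u v).1, fun u v => (key2 u v).2.1,
    fun u v => (key2 u v).2.2.1, fun u v => (key2 u v).2.2.2⟩

lemma M_iff' {τ : ℤ → ℤ → ℕ} {x y : ℤ} :
    M τ x y ↔ (τ (x / 2) (y / 2) = 1 ↔ x % 2 = 0) ∧ (τ (x / 2) (y / 2) = 2 ↔ y % 2 = 0) := by
  unfold M cenx ceny
  split_ifs with h1 h2 h2
  · omega
  · constructor
    · rintro ⟨h3, h4⟩; refine ⟨?_, ?_⟩ <;> constructor <;> intro <;> omega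
    · rintro ⟨h3, h4⟩; refine ⟨?_, ?_⟩ <;> omega
  · constructor
    · rintro ⟨h3, h4⟩; refine ⟨?_, ?_⟩ <;> constructor <;> intro <;> omega
    · rintro ⟨h3, h4⟩; refine ⟨?_, ?_⟩ <;> omega
  · constructor
    · rintro ⟨h3, h4⟩; refine ⟨?_, ?_⟩ <;> constructor <;> intro <;> omega
    · rintro ⟨h3, h4⟩; refine ⟨?_, ?_⟩ <;> omega

def Mb (τ : ℤ → ℤ → ℕ) (x y : ℤ) : Bool :=
  ((τ (x / 2) (y / 2) == 1) == (x % 2 == 0)) && ((τ (x / 2) (y / 2) == 2) == (y % 2 == 0))

lemma bool_beq {a b : Bool} : ((a == b) = true) ↔ (a = true ↔ b = true) := by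
  cases a <;> cases b <;> simp

lemma Mb_iff {τ : ℤ → ℤ → ℕ} {x y : ℤ} : Mb τ x y = true ↔ M τ x y := by
  rw [M_iff']
  unfold Mb
  rw [Bool.and_eq_true, bool_beq, bool_beq]
  simp only [beq_iff_eq]

def presc (τ : ℤ → ℤ → ℕ) (k : Fin 12) (s t u v : ℤ) : Bool :=
  Mb τ (cx k s (cenx τ u v) (ceny τ u v)) (cy k t (cenx τ u v) (ceny τ u v))

def presb (N W : ℕ) (k : Fin 12) (s t : ℤ) : Bool :=
  (List.range N).all fun u => (List.range N).all fun v => presc (tauW N W) k s t u v

lemma M_shift {N W : ℕ} {x y a b : ℤ} :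
    M (tauW N W) (x + 2 * N * a) (y + 2 * N * b) ↔ M (tauW N W) x y := by
  have e1 : (x + 2 * N * a) / 2 = x / 2 + N * a := by
    rw [show x + 2 * (N : ℤ) * a = x + 2 * (N * a) by ring]; omega
  have e2 : (y + 2 * N * b) / 2 = y / 2 + N * b := by
    rw [show y + 2 * (N : ℤ) * b = y + 2 * (N * b) by ring]; omega
  have e3 : (x + 2 * N * a) % 2 = x % 2 := by
    rw [show x + 2 * (N : ℤ) * a = x + 2 * (N * a) by ring]; omega
  have e4 : (y + 2 * N * b) % 2 = y % 2 := by
    rw [show y + 2 * (N : ℤ) * b = y + 2 * (N * b) by ring]; omega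
  rw [M_iff', M_iff', e1, e2, e3, e4]
  rw [tauW_congr (u := x / 2 + N * a) (u' := x / 2) (v := y / 2 + N * b) (v' := y / 2)
    (by simp) (by simp)]

lemma cen_shift {N W : ℕ} (u v a b : ℤ) :
    cenx (tauW N W) (u + N * a) (v + N * b) = cenx (tauW N W) u v + 2 * N * a ∧
    ceny (tauW N W) (u + N * a) (v + N * b) = ceny (tauW N W) u v + 2 * N * b := by
  unfold cenx ceny
  rw [tauW_congr (u := u + N * a) (u' := u) (v := v + N * b) (v' := v) (by simp) (by simp)]
  constructor
  · split_ifs <;> ring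
  · split_ifs <;> ring

lemma pres_iff {N W : ℕ} (hN : 0 < N) (k : Fin 12) (s t : ℤ) :
    presb N W k s t = true ↔ Pres (tauW N W) k s t := by
  constructor
  · intro h u v
    obtain ⟨u0, hu0, a, rfl⟩ := reduce hN u
    obtain ⟨v0, hv0, b, rfl⟩ := reduce hN v
    have h1 : presc (tauW N W) k s t u0 v0 = true := by
      unfold presb at h
      rw [List.all_eq_true] at h
      have := h u0 (List.mem_range.2 hu0)
      rw [List.all_eq_true] at this
      exact this v0 (List.mem_range.2 hv0)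
    unfold presc at h1
    rw [Mb_iff] at h1
    rw [(cen_shift (u0 : ℤ) v0 a b).1, (cen_shift (u0 : ℤ) v0 a b).2]
    have e1 : cx k s (cenx (tauW N W) u0 v0 + 2 * N * a) (ceny (tauW N W) u0 v0 + 2 * N * b) =
        cx k s (cenx (tauW N W) u0 v0) (ceny (tauW N W) u0 v0) + 2 * N * (A11 k * a + A12 k * b) := by
      unfold cx; ring
    have e2 : cy k t (cenx (tauW N W) u0 v0 + 2 * N * a) (ceny (tauW N W) u0 v0 + 2 * N * b) =
        cy k t (cenx (tauW N W) u0 v0) (ceny (tauW N W) u0 v0) + 2 * N * (A21 k * a + A22 k * b) := by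
      unfold cy; ring
    rw [e1, e2, M_shift]
    exact h1
  · intro h
    unfold presb
    rw [List.all_eq_true]
    intro u _
    rw [List.all_eq_true]
    intro v _
    unfold presc
    rw [Mb_iff]
    exact h u v

lemma pres_shift {N W : ℕ} (k : Fin 12) (s t a b : ℤ) :
    Pres (tauW N W) k (s + N * a) (t + N * b) ↔ Pres (tauW N W) k s t := by
  unfold Pres
  refine forall_congr' fun u => forall_congr' fun v => ?_
  have e1 : cx k (s + N * a) (cenx (tauW N W) u v) (ceny (tauW N W) u v) =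
      cx k s (cenx (tauW N W) u v) (ceny (tauW N W) u v) + 2 * N * a := by
    unfold cx; ring
  have e2 : cy k (t + N * b) (cenx (tauW N W) u v) (ceny (tauW N W) u v) =
      cy k t (cenx (tauW N W) u v) (ceny (tauW N W) u v) + 2 * N * b := by
    unfold cy; ring
  rw [e1, e2, M_shift]

def checkb (N W : ℕ) (cf : Fin 12 → ℤ → ℤ → Bool) : Bool :=
  (List.finRange 12).all fun k => (List.range N).all fun s => (List.range N).all fun t =>
    (presb N W k s t == cf k s t) && (!(cf k s t) || cf (invk k) (invs k s t) (invt k s t))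

theorem sym_iff {N W : ℕ} (hN : 0 < N) (cf : Fin 12 → ℤ → ℤ → Bool)
    (hper : ∀ k (s t a b : ℤ), cf k (s + N * a) (t + N * b) = cf k s t)
    (hcheck : checkb N W cf = true) (k : Fin 12) (s t : ℤ) :
    isoOf k s t ∈ Sym (tauW N W) ↔ cf k s t = true := by
  have key : ∀ (k : Fin 12) (s t : ℤ), (presb N W k s t = cf k s t) ∧
      (cf k s t = true → cf (invk k) (invs k s t) (invt k s t) = true) := by
    intro k s t
    obtain ⟨s0, hs0, a, rfl⟩ := reduce hN s
    obtain ⟨t0, ht0, b, rfl⟩ := reduce hN t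
    have h1 : ((presb N W k s0 t0 == cf k s0 t0) && (!(cf k s0 t0) ||
        cf (invk k) (invs k s0 t0) (invt k s0 t0))) = true := by
      unfold checkb at hcheck
      rw [List.all_eq_true] at hcheck
      have := hcheck k (List.mem_finRange k)
      rw [List.all_eq_true] at this
      have := this s0 (List.mem_range.2 hs0)
      rw [List.all_eq_true] at this
      exact this t0 (List.mem_range.2 ht0)
    rw [Bool.and_eq_true] at h1
    obtain ⟨h2, h3⟩ := h1
    rw [beq_iff_eq] at h2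
    constructor
    · rw [hper, ← h2, Bool.eq_iff_iff, pres_iff hN, pres_iff hN, pres_shift]
    · intro h4
      rw [hper] at h4
      rw [h4] at h3
      have e1 : invs k (s0 + N * a) (t0 + N * b) = invs k s0 t0 + N * invs k a b := by
        unfold invs; ring
      have e2 : invt k (s0 + N * a) (t0 + N * b) = invt k s0 t0 + N * invt k a b := by
        unfold invt; ring
      rw [e1, e2, hper]
      simpa using h3
  constructor
  · intro h
    have := sym_pres h
    rw [← pres_iff hN] at this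
    rw [← (key k s t).1]
    exact this
  · intro h
    apply pres_sym
    · rw [← pres_iff hN, (key k s t).1]
      exact h
    · rw [← pres_iff hN, (key _ _ _).1]
      exact (key k s t).2 h

end Pool.Agent.H77.Loz
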