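import Pool.Agent.H77.Loz.Facts

set_option autoImplicit false

namespace Pool.Agent.H77.Loz

lemma H_p1 (k : Fin 12) (s t : ℤ) : (⟨k, s, t⟩ : Trip) ∈ H (tauW 7 W_p1) ↔ k = 0 ∧ t % 7 = 0 := by
  rw [mem_H, sym_p1]; simp only [cf_p1, decide_eq_true_eq]
lemma H_p2 (k : Fin 12) (s t : ℤ) :
    (⟨k, s, t⟩ : Trip) ∈ H (tauW 3 W_p2) ↔ (k = 0 ∨ k = 3) ∧ t % 3 = 0 := by
  rw [mem_H, sym_p2]; simp only [cf_p2, decide_eq_true_eq]
lemma H_pm (k : Fin 12) (s t : ℤ) :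
    (⟨k, s, t⟩ : Trip) ∈ H (tauW 6 W_pm) ↔ (k = 0 ∨ k = 11) ∧ t % 6 = 0 := by
  rw [mem_H, sym_pm]; simp only [cf_pm, decide_eq_true_eq]
lemma H_pg (k : Fin 12) (s t : ℤ) :
    (⟨k, s, t⟩ : Trip) ∈ H (tauW 12 W_pg) ↔ (k = 0 ∧ t % 12 = 0) ∨ (k = 8 ∧ t % 12 = 6) := by
  rw [mem_H, sym_pg]; simp only [cf_pg, decide_eq_true_eq]
lemma H_cm (k : Fin 12) (s t : ℤ) :
    (⟨k, s, t⟩ : Trip) ∈ H (tauW 4 W_cm) ↔ (k = 0 ∨ k = 9) ∧ s % 4 = 0 ∧ t % 4 = 0 := by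
  rw [mem_H, sym_cm]; simp only [cf_cm, decide_eq_true_eq]
lemma H_pmm (k : Fin 12) (s t : ℤ) :
    (⟨k, s, t⟩ : Trip) ∈ H (tauW 8 W_pmm) ↔
      (k = 0 ∨ k = 3 ∨ k = 6 ∨ k = 9) ∧ (t - s) % 8 = 0 := by
  rw [mem_H, sym_pmm]; simp only [cf_pmm, decide_eq_true_eq]
lemma H_pmg (k : Fin 12) (s t : ℤ) :
    (⟨k, s, t⟩ : Trip) ∈ H (tauW 2 W_pmg) ↔
      ((k = 0 ∨ k = 11) ∧ t % 2 = 0) ∨ ((k = 3 ∨ k = 8) ∧ t % 2 = 1) := by
  rw [mem_H, sym_pmg]; simp only [cf_pmg, decide_eq_true_eq]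
lemma H_pgg (k : Fin 12) (s t : ℤ) :
    (⟨k, s, t⟩ : Trip) ∈ H (tauW 6 W_pgg) ↔
      (k = 0 ∧ s % 3 = 0 ∧ (t - s) % 6 = 0) ∨ (k = 3 ∧ s % 3 = 1 ∧ (t - s) % 6 = 2) ∨
      (k = 6 ∧ s % 3 = 2 ∧ (t - s) % 6 = 5) ∨ (k = 9 ∧ s % 3 = 2 ∧ (t - s) % 6 = 3) := by
  rw [mem_H, sym_pgg]; simp only [cf_pgg, decide_eq_true_eq]
lemma H_cmm (k : Fin 12) (s t : ℤ) :
    (⟨k, s, t⟩ : Trip) ∈ H (tauW 1 W_cmm) ↔ (k = 0 ∨ k = 3 ∨ k = 6 ∨ k = 9) := by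
  rw [mem_H, sym_cmm]; simp only [cf_cmm, decide_eq_true_eq]
lemma H_p3 (k : Fin 12) (s t : ℤ) :
    (⟨k, s, t⟩ : Trip) ∈ H (tauW 6 W_p3) ↔ (k = 0 ∨ k = 2 ∨ k = 4) ∧ s % 6 = 0 ∧ t % 6 = 0 := by
  rw [mem_H, sym_p3]; simp only [cf_p3, decide_eq_true_eq]
lemma H_p3m1 (k : Fin 12) (s t : ℤ) :
    (⟨k, s, t⟩ : Trip) ∈ H (tauW 6 W_p3m1) ↔
      (k = 0 ∨ k = 2 ∨ k = 4 ∨ k = 7 ∨ k = 9 ∨ k = 11) ∧ s % 2 = 0 ∧ (t - s) % 6 = 0 := by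
  rw [mem_H, sym_p3m1]; simp only [cf_p3m1, decide_eq_true_eq]
lemma H_p31m (k : Fin 12) (s t : ℤ) :
    (⟨k, s, t⟩ : Trip) ∈ H (tauW 3 W_p31m) ↔
      (k = 0 ∨ k = 2 ∨ k = 4 ∨ k = 7 ∨ k = 9 ∨ k = 11) ∧ s % 3 = 0 ∧ t % 3 = 0 := by
  rw [mem_H, sym_p31m]; simp only [cf_p31m, decide_eq_true_eq]
lemma H_p6 (k : Fin 12) (s t : ℤ) :
    (⟨k, s, t⟩ : Trip) ∈ H (tauW 6 W_p6) ↔
      (k = 0 ∨ k = 1 ∨ k = 2 ∨ k = 3 ∨ k = 4 ∨ k = 5) ∧ s % 6 = 0 ∧ t % 6 = 0 := by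
  rw [mem_H, sym_p6]; simp only [cf_p6, decide_eq_true_eq]
lemma H_p6m (k : Fin 12) (s t : ℤ) :
    (⟨k, s, t⟩ : Trip) ∈ H (tauW 3 W_p6m) ↔ (t - s) % 3 = 0 := by
  rw [mem_H, sym_p6m]; simp only [cf_p6m, decide_eq_true_eq]

lemma code_p1 : code (H (tauW 7 W_p1)) = 0 := by
  unfold code
  rw [if_pos]
  apply comm_of
  rintro ⟨k, s, t⟩ hx ⟨l, p, q⟩ hy
  rw [H_p1] at hx hy
  obtain ⟨rfl, hx⟩ := hx
  obtain ⟨rfl, hy⟩ := hy
  simp [Trip.mul_mk, mulk, A11, A12, A21, A22]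
  omega

lemma code_pg : code (H (tauW 12 W_pg)) = 2 := by
  unfold code
  have h1 : ¬ S_comm (H (tauW 12 W_pg)) :=
    comm_not (x := ⟨0, 1, 0⟩) (y := ⟨8, 0, 6⟩) (by rw [H_pg]; decide) (by rw [H_pg]; decide)
      (by decide)
  have h2 : ¬ S_inv (H (tauW 12 W_pg)) := by
    apply inv_not
    rintro ⟨k, s, t⟩ hx h
    rw [H_pg] at hx
    rcases hx with ⟨rfl, hx⟩ | ⟨rfl, hx⟩ <;>
      simp [Trip.mul_mk, Trip.one_mk, mulk, A11, A12, A21, A22] at h ⊢ <;> omega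
  have h3 : ¬ S_ord3 (H (tauW 12 W_pg)) := by
    apply ord3_not
    rintro ⟨k, s, t⟩ hx h
    rw [H_pg] at hx
    rcases hx with ⟨rfl, hx⟩ | ⟨rfl, hx⟩ <;>
      simp [Trip.mul_mk, Trip.one_mk, mulk, A11, A12, A21, A22] at h ⊢ <;> omega
  rw [if_neg h1, if_pos h2, if_neg h3]

lemma code_p3 : code (H (tauW 6 W_p3)) = 1 := by
  unfold code
  have h1 : ¬ S_comm (H (tauW 6 W_p3)) :=
    comm_not (x := ⟨0, 6, 0⟩) (y := ⟨2, 0, 0⟩) (by rw [H_p3]; decide) (by rw [H_p3]; decide)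
      (by decide)
  have h2 : ¬ S_inv (H (tauW 6 W_p3)) := by
    apply inv_not
    rintro ⟨k, s, t⟩ hx h
    rw [H_p3] at hx
    rcases hx with ⟨rfl | rfl | rfl, hx⟩ <;>
      simp [Trip.mul_mk, Trip.one_mk, mulk, A11, A12, A21, A22] at h ⊢ <;> omega
  have h3 : S_ord3 (H (tauW 6 W_p3)) :=
    ord3_of (x := ⟨2, 0, 0⟩) (by rw [H_p3]; decide) (by decide) (by decide)
  rw [if_neg h1, if_pos h2, if_pos h3]

lemma code_p6m : code (H (tauW 3 W_p6m)) = 3 := by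
  unfold code
  have h1 : ¬ S_comm (H (tauW 3 W_p6m)) :=
    comm_not (x := ⟨0, 3, 0⟩) (y := ⟨2, 0, 0⟩) (by rw [H_p6m]; decide) (by rw [H_p6m]; decide)
      (by decide)
  have h2 : S_inv (H (tauW 3 W_p6m)) :=
    inv_of (x := ⟨3, 0, 0⟩) (by rw [H_p6m]; decide) (by decide) (by decide)
  have h3 : S_ord3 (H (tauW 3 W_p6m)) :=
    ord3_of (x := ⟨2, 0, 0⟩) (by rw [H_p6m]; decide) (by decide) (by decide)
  have h4 : S_kl (H (tauW 3 W_p6m)) :=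
    kl_of (x := ⟨3, 0, 0⟩) (y := ⟨6, 0, 0⟩) (by rw [H_p6m]; decide) (by rw [H_p6m]; decide)
      (by decide)
  rw [if_neg h1, if_neg (not_not.2 h2), if_pos h3, if_pos h4]

lemma code_p6 : code (H (tauW 6 W_p6)) = 4 := by
  unfold code
  have h1 : ¬ S_comm (H (tauW 6 W_p6)) :=
    comm_not (x := ⟨0, 6, 0⟩) (y := ⟨2, 0, 0⟩) (by rw [H_p6]; decide) (by rw [H_p6]; decide)
      (by decide)
  have h2 : S_inv (H (tauW 6 W_p6)) :=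
    inv_of (x := ⟨3, 0, 0⟩) (by rw [H_p6]; decide) (by decide) (by decide)
  have h3 : S_ord3 (H (tauW 6 W_p6)) :=
    ord3_of (x := ⟨2, 0, 0⟩) (by rw [H_p6]; decide) (by decide) (by decide)
  have inv3 : ∀ k s t, (⟨k, s, t⟩ : Trip) ∈ H (tauW 6 W_p6) → (⟨k, s, t⟩ : Trip) ≠ 1 →
      (⟨k, s, t⟩ : Trip) * ⟨k, s, t⟩ = 1 → k = 3 := by
    intro k s t hx hne h
    rw [H_p6] at hx
    rcases hx with ⟨rfl | rfl | rfl | rfl | rfl | rfl, hx⟩ <;>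
      simp [Trip.mul_mk, Trip.one_mk, mulk, A11, A12, A21, A22] at h hne ⊢ <;> omega
  have h4 : ¬ S_kl (H (tauW 6 W_p6)) := by
    apply kl_not
    rintro ⟨k, s, t⟩ hx ⟨l, p, q⟩ hy h1 h2 h3 h4 h5
    obtain rfl := inv3 _ _ _ hx h1 h3
    obtain rfl := inv3 _ _ _ hy h2 h4
    simp [Trip.mul_mk, mulk, A11, A12, A21, A22] at h5 ⊢
    omega
  have h5 : S_ord6 (H (tauW 6 W_p6)) :=
    ord6_of (x := ⟨1, 0, 0⟩) (by rw [H_p6]; decide) (by decide) (by decide) (by decide)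
  rw [if_neg h1, if_neg (not_not.2 h2), if_pos h3, if_neg h4, if_pos h5]

lemma code_p3m1 : code (H (tauW 6 W_p3m1)) = 5 := by
  unfold code
  have h1 : ¬ S_comm (H (tauW 6 W_p3m1)) :=
    comm_not (x := ⟨0, 6, 0⟩) (y := ⟨2, 0, 0⟩) (by rw [H_p3m1]; decide) (by rw [H_p3m1]; decide)
      (by decide)
  have h2 : S_inv (H (tauW 6 W_p3m1)) :=
    inv_of (x := ⟨7, 0, 0⟩) (by rw [H_p3m1]; decide) (by decide) (by decide)
  have h3 : S_ord3 (H (tauW 6 W_p3m1)) :=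
    ord3_of (x := ⟨2, 0, 0⟩) (by rw [H_p3m1]; decide) (by decide) (by decide)
  have inv3 : ∀ k s t, (⟨k, s, t⟩ : Trip) ∈ H (tauW 6 W_p3m1) → (⟨k, s, t⟩ : Trip) ≠ 1 →
      (⟨k, s, t⟩ : Trip) * ⟨k, s, t⟩ = 1 → k = 7 ∨ k = 9 ∨ k = 11 := by
    intro k s t hx hne h
    rw [H_p3m1] at hx
    rcases hx with ⟨rfl | rfl | rfl | rfl | rfl | rfl, hx⟩ <;>
      simp [Trip.mul_mk, Trip.one_mk, mulk, A11, A12, A21, A22] at h hne ⊢ <;> omega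
  have h4 : ¬ S_kl (H (tauW 6 W_p3m1)) := by
    apply kl_not
    rintro ⟨k, s, t⟩ hx ⟨l, p, q⟩ hy h1 h2 h3 h4 h5
    have j1 := inv3 _ _ _ hx h1 h3
    have j2 := inv3 _ _ _ hy h2 h4
    clear hx hy h1 h2
    rcases j1 with rfl | rfl | rfl <;> rcases j2 with rfl | rfl | rfl <;>
      simp [Trip.mul_mk, Trip.one_mk, mulk, A11, A12, A21, A22] at h3 h4 h5 ⊢ <;> omega
  have h5 : ¬ S_ord6 (H (tauW 6 W_p3m1)) := by
    apply ord6_not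
    rintro ⟨k, s, t⟩ hx h
    rw [H_p3m1] at hx
    rcases hx with ⟨rfl | rfl | rfl | rfl | rfl | rfl, hx⟩ <;>
      simp [Trip.mul_mk, Trip.one_mk, mulk, A11, A12, A21, A22] at h ⊢ <;> omega
  have h6 : S_s3 (H (tauW 6 W_p3m1)) := by
    apply s3_of
    rintro ⟨k, s, t⟩ hx h
    rw [H_p3m1] at hx
    rcases hx with ⟨rfl | rfl | rfl | rfl | rfl | rfl, hx1, hx2⟩
    · refine ⟨⟨7, 0, 0⟩, by rw [H_p3m1]; decide, by decide, by decide, ?_⟩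
      simp [Trip.mul_mk, Trip.one_mk, mulk, A11, A12, A21, A22] at h ⊢
      omega
    · refine ⟨⟨9, (2 * s + t) / 3, (2 * s + t) / 3⟩, ?_, ?_, ?_, ?_⟩
      · rw [H_p3m1]
        refine ⟨by decide, ?_, ?_⟩ <;> omega
      · simp [Trip.one_mk]
      · simp [Trip.mul_mk, Trip.one_mk, mulk, A11, A12, A21, A22]
      · simp [Trip.mul_mk, Trip.one_mk, mulk, A11, A12, A21, A22]
        omega
    · refine ⟨⟨9, (s + 2 * t) / 3, (s + 2 * t) / 3⟩, ?_, ?_, ?_, ?_⟩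
      · rw [H_p3m1]
        refine ⟨by decide, ?_, ?_⟩ <;> omega
      · simp [Trip.one_mk]
      · simp [Trip.mul_mk, Trip.one_mk, mulk, A11, A12, A21, A22]
      · simp [Trip.mul_mk, Trip.one_mk, mulk, A11, A12, A21, A22]
        omega
    · simp [Trip.mul_mk, Trip.one_mk, mulk] at h
    · simp [Trip.mul_mk, Trip.one_mk, mulk] at h
    · simp [Trip.mul_mk, Trip.one_mk, mulk] at h
  rw [if_neg h1, if_neg (not_not.2 h2), if_pos h3, if_neg h4, if_neg h5, if_pos h6]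

lemma code_p31m : code (H (tauW 3 W_p31m)) = 6 := by
  unfold code
  have h1 : ¬ S_comm (H (tauW 3 W_p31m)) :=
    comm_not (x := ⟨0, 3, 0⟩) (y := ⟨2, 0, 0⟩) (by rw [H_p31m]; decide) (by rw [H_p31m]; decide)
      (by decide)
  have h2 : S_inv (H (tauW 3 W_p31m)) :=
    inv_of (x := ⟨7, 0, 0⟩) (by rw [H_p31m]; decide) (by decide) (by decide)
  have h3 : S_ord3 (H (tauW 3 W_p31m)) :=
    ord3_of (x := ⟨2, 0, 0⟩) (by rw [H_p31m]; decide) (by decide) (by decide)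
  have inv3 : ∀ k s t, (⟨k, s, t⟩ : Trip) ∈ H (tauW 3 W_p31m) → (⟨k, s, t⟩ : Trip) ≠ 1 →
      (⟨k, s, t⟩ : Trip) * ⟨k, s, t⟩ = 1 → k = 7 ∨ k = 9 ∨ k = 11 := by
    intro k s t hx hne h
    rw [H_p31m] at hx
    rcases hx with ⟨rfl | rfl | rfl | rfl | rfl | rfl, hx⟩ <;>
      simp [Trip.mul_mk, Trip.one_mk, mulk, A11, A12, A21, A22] at h hne ⊢ <;> omega
  have h4 : ¬ S_kl (H (tauW 3 W_p31m)) := by
    apply kl_not
    rintro ⟨k, s, t⟩ hx ⟨l, p, q⟩ hy h1 h2 h3 h4 h5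
    have j1 := inv3 _ _ _ hx h1 h3
    have j2 := inv3 _ _ _ hy h2 h4
    clear hx hy h1 h2
    rcases j1 with rfl | rfl | rfl <;> rcases j2 with rfl | rfl | rfl <;>
      simp [Trip.mul_mk, Trip.one_mk, mulk, A11, A12, A21, A22] at h3 h4 h5 ⊢ <;> omega
  have h5 : ¬ S_ord6 (H (tauW 3 W_p31m)) := by
    apply ord6_not
    rintro ⟨k, s, t⟩ hx h
    rw [H_p31m] at hx
    rcases hx with ⟨rfl | rfl | rfl | rfl | rfl | rfl, hx⟩ <;>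
      simp [Trip.mul_mk, Trip.one_mk, mulk, A11, A12, A21, A22] at h ⊢ <;> omega
  have h6 : ¬ S_s3 (H (tauW 3 W_p31m)) := by
    apply s3_not (x := ⟨2, 3, 0⟩) (by rw [H_p31m]; decide) (by decide)
    rintro ⟨k, s, t⟩ hx h h'
    rw [H_p31m] at hx
    rcases hx with ⟨rfl | rfl | rfl | rfl | rfl | rfl, hx⟩ <;>
      simp [Trip.mul_mk, Trip.one_mk, mulk, A11, A12, A21, A22] at h h' ⊢ <;> omega
  rw [if_neg h1, if_neg (not_not.2 h2), if_pos h3, if_neg h4, if_neg h5, if_neg h6]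

lemma code_p2 : code (H (tauW 3 W_p2)) = 7 := by
  unfold code
  have h1 : ¬ S_comm (H (tauW 3 W_p2)) :=
    comm_not (x := ⟨0, 3, 0⟩) (y := ⟨3, 0, 0⟩) (by rw [H_p2]; decide) (by rw [H_p2]; decide)
      (by decide)
  have h2 : S_inv (H (tauW 3 W_p2)) :=
    inv_of (x := ⟨3, 0, 0⟩) (by rw [H_p2]; decide) (by decide) (by decide)
  have h3 : ¬ S_ord3 (H (tauW 3 W_p2)) := by
    apply ord3_not
    rintro ⟨k, s, t⟩ hx h
    rw [H_p2] at hx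
    rcases hx with ⟨rfl | rfl, hx⟩ <;>
      simp [Trip.mul_mk, Trip.one_mk, mulk, A11, A12, A21, A22] at h ⊢ <;> omega
  have h4 : S_a (H (tauW 3 W_p2)) := by
    apply a_of
    rintro ⟨k, s, t⟩ hx ⟨l, p, q⟩ hy h1 h2
    rw [H_p2] at hx hy
    rcases hx with ⟨rfl | rfl, hx⟩ <;> rcases hy with ⟨rfl | rfl, hy⟩ <;>
      simp [Trip.mul_mk, Trip.one_mk, mulk, A11, A12, A21, A22] at h1 h2 ⊢ <;> omega
  rw [if_neg h1, if_neg (not_not.2 h2), if_neg h3, if_pos h4]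

lemma code_pgg : code (H (tauW 6 W_pgg)) = 8 := by
  unfold code
  have h1 : ¬ S_comm (H (tauW 6 W_pgg)) :=
    comm_not (x := ⟨0, 6, 0⟩) (y := ⟨3, 1, 3⟩) (by rw [H_pgg]; decide) (by rw [H_pgg]; decide)
      (by decide)
  have h2 : S_inv (H (tauW 6 W_pgg)) :=
    inv_of (x := ⟨3, 1, 3⟩) (by rw [H_pgg]; decide) (by decide) (by decide)
  have h3 : ¬ S_ord3 (H (tauW 6 W_pgg)) := by
    apply ord3_not
    rintro ⟨k, s, t⟩ hx h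
    rw [H_pgg] at hx
    rcases hx with ⟨rfl, hx⟩ | ⟨rfl, hx⟩ | ⟨rfl, hx⟩ | ⟨rfl, hx⟩ <;>
      simp [Trip.mul_mk, Trip.one_mk, mulk, A11, A12, A21, A22] at h ⊢ <;> omega
  have h4 : ¬ S_a (H (tauW 6 W_pgg)) :=
    a_not (x := ⟨0, 6, 0⟩) (y := ⟨6, 2, 1⟩) (by rw [H_pgg]; decide) (by rw [H_pgg]; decide)
      (by decide) (by decide) (by decide)
  have h5 : S_g (H (tauW 6 W_pgg)) := by
    apply g_of
    rintro ⟨k, s, t⟩ hx ⟨l, p, q⟩ hy h1 h2 h3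
    rw [H_pgg] at hx hy
    rcases hx with ⟨rfl, hx⟩ | ⟨rfl, hx⟩ | ⟨rfl, hx⟩ | ⟨rfl, hx⟩ <;>
      rcases hy with ⟨rfl, hy⟩ | ⟨rfl, hy⟩ | ⟨rfl, hy⟩ | ⟨rfl, hy⟩ <;>
      simp [Trip.mul_mk, Trip.one_mk, mulk, A11, A12, A21, A22] at h1 h2 h3 ⊢ <;> omega
  rw [if_neg h1, if_neg (not_not.2 h2), if_neg h3, if_neg h4, if_pos h5]

lemma code_cm : code (H (tauW 4 W_cm)) = 9 := by
  unfold code
  have h1 : ¬ S_comm (H (tauW 4 W_cm)) :=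
    comm_not (x := ⟨0, 4, 0⟩) (y := ⟨9, 0, 0⟩) (by rw [H_cm]; decide) (by rw [H_cm]; decide)
      (by decide)
  have h2 : S_inv (H (tauW 4 W_cm)) :=
    inv_of (x := ⟨9, 0, 0⟩) (by rw [H_cm]; decide) (by decide) (by decide)
  have h3 : ¬ S_ord3 (H (tauW 4 W_cm)) := by
    apply ord3_not
    rintro ⟨k, s, t⟩ hx h
    rw [H_cm] at hx
    rcases hx with ⟨rfl | rfl, hx⟩ <;>
      simp [Trip.mul_mk, Trip.one_mk, mulk, A11, A12, A21, A22] at h ⊢ <;> omega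
  have h4 : ¬ S_a (H (tauW 4 W_cm)) :=
    a_not (x := ⟨0, 4, 0⟩) (y := ⟨9, 4, 0⟩) (by rw [H_cm]; decide) (by rw [H_cm]; decide)
      (by decide) (by decide) (by decide)
  have h5 : ¬ S_g (H (tauW 4 W_cm)) :=
    g_not (x := ⟨9, 0, 0⟩) (y := ⟨0, 4, -4⟩) (by rw [H_cm]; decide) (by rw [H_cm]; decide)
      (by decide) (by decide) (by decide) (by decide) (by decide)
  have inv3 : ∀ k s t, (⟨k, s, t⟩ : Trip) ∈ H (tauW 4 W_cm) → (⟨k, s, t⟩ : Trip) ≠ 1 →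
      (⟨k, s, t⟩ : Trip) * ⟨k, s, t⟩ = 1 → k = 9 ∧ t = s := by
    intro k s t hx hne h
    rw [H_cm] at hx
    rcases hx with ⟨rfl | rfl, hx⟩ <;>
      simp [Trip.mul_mk, Trip.one_mk, mulk, A11, A12, A21, A22] at h hne ⊢ <;> omega
  have h6 : S_d (H (tauW 4 W_cm)) := by
    apply d_of
    rintro ⟨k1, s1, t1⟩ hx ⟨k2, s2, t2⟩ hy ⟨k3, s3, t3⟩ hz ⟨k4, s4, t4⟩ hw h1 h2 h3 h4 h5 h6 h7 h8
    obtain ⟨rfl, rfl⟩ := inv3 _ _ _ hx h1 h5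
    obtain ⟨rfl, rfl⟩ := inv3 _ _ _ hy h2 h6
    obtain ⟨rfl, rfl⟩ := inv3 _ _ _ hz h3 h7
    obtain ⟨rfl, rfl⟩ := inv3 _ _ _ hw h4 h8
    simp [Trip.mul_mk, Trip.one_mk, mulk, A11, A12, A21, A22]
    omega
  have h7 : S_c (H (tauW 4 W_cm)) := by
    apply c_of
    rintro ⟨k, s, t⟩ hx h
    have g1 := h ⟨0, 4, 0⟩ (by rw [H_cm]; decide)
    have g2 := h ⟨9, 0, 0⟩ (by rw [H_cm]; decide)
    clear h
    have hx' := hx
    rw [H_cm] at hx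
    rcases hx with ⟨rfl | rfl, hx⟩
    · refine ⟨⟨9, s, 0⟩, ?_, ?_⟩
      · rw [H_cm]
        refine ⟨by decide, ?_, ?_⟩ <;> omega
      · simp [Trip.mul_mk, Trip.one_mk, mulk, A11, A12, A21, A22] at g1 g2 ⊢
        omega
    · exfalso
      simp [Trip.mul_mk, Trip.one_mk, mulk, A11, A12, A21, A22] at g1 g2
  rw [if_neg h1, if_neg (not_not.2 h2), if_neg h3, if_neg h4, if_neg h5, if_pos h6, if_pos h7]

lemma code_pm : code (H (tauW 6 W_pm)) = 10 := by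
  unfold code
  have h1 : ¬ S_comm (H (tauW 6 W_pm)) :=
    comm_not (x := ⟨0, 0, 6⟩) (y := ⟨11, 0, 0⟩) (by rw [H_pm]; decide) (by rw [H_pm]; decide)
      (by decide)
  have h2 : S_inv (H (tauW 6 W_pm)) :=
    inv_of (x := ⟨11, 0, 0⟩) (by rw [H_pm]; decide) (by decide) (by decide)
  have h3 : ¬ S_ord3 (H (tauW 6 W_pm)) := by
    apply ord3_not
    rintro ⟨k, s, t⟩ hx h
    rw [H_pm] at hx
    rcases hx with ⟨rfl | rfl, hx⟩ <;>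
      simp [Trip.mul_mk, Trip.one_mk, mulk, A11, A12, A21, A22] at h ⊢ <;> omega
  have h4 : ¬ S_a (H (tauW 6 W_pm)) :=
    a_not (x := ⟨0, 0, 6⟩) (y := ⟨11, 1, 0⟩) (by rw [H_pm]; decide) (by rw [H_pm]; decide)
      (by decide) (by decide) (by decide)
  have h5 : ¬ S_g (H (tauW 6 W_pm)) :=
    g_not (x := ⟨11, 0, 0⟩) (y := ⟨0, 1, 0⟩) (by rw [H_pm]; decide) (by rw [H_pm]; decide)
      (by decide) (by decide) (by decide) (by decide) (by decide)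
  have inv3 : ∀ k s t, (⟨k, s, t⟩ : Trip) ∈ H (tauW 6 W_pm) → (⟨k, s, t⟩ : Trip) ≠ 1 →
      (⟨k, s, t⟩ : Trip) * ⟨k, s, t⟩ = 1 → k = 11 ∧ t = -2 * s := by
    intro k s t hx hne h
    rw [H_pm] at hx
    rcases hx with ⟨rfl | rfl, hx⟩ <;>
      simp [Trip.mul_mk, Trip.one_mk, mulk, A11, A12, A21, A22] at h hne ⊢ <;> omega
  have h6 : S_d (H (tauW 6 W_pm)) := by
    apply d_of
    rintro ⟨k1, s1, t1⟩ hx ⟨k2, s2, t2⟩ hy ⟨k3, s3, t3⟩ hz ⟨k4, s4, t4⟩ hw h1 h2 h3 h4 h5 h6 h7 h8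
    obtain ⟨rfl, rfl⟩ := inv3 _ _ _ hx h1 h5
    obtain ⟨rfl, rfl⟩ := inv3 _ _ _ hy h2 h6
    obtain ⟨rfl, rfl⟩ := inv3 _ _ _ hz h3 h7
    obtain ⟨rfl, rfl⟩ := inv3 _ _ _ hw h4 h8
    simp [Trip.mul_mk, Trip.one_mk, mulk, A11, A12, A21, A22]
    omega
  have h7 : ¬ S_c (H (tauW 6 W_pm)) := by
    apply c_not (z := ⟨0, 1, 0⟩) (by rw [H_pm]; decide)
    · rintro ⟨k, s, t⟩ hx
      rw [H_pm] at hx
      rcases hx with ⟨rfl | rfl, hx⟩ <;>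
        simp [Trip.mul_mk, Trip.one_mk, mulk, A11, A12, A21, A22] <;> omega
    · rintro ⟨k, s, t⟩ hx h
      rw [H_pm] at hx
      rcases hx with ⟨rfl | rfl, hx⟩ <;>
        simp [Trip.mul_mk, Trip.one_mk, mulk, A11, A12, A21, A22] at h <;> omega
  rw [if_neg h1, if_neg (not_not.2 h2), if_neg h3, if_neg h4, if_neg h5, if_pos h6, if_neg h7]

lemma code_pmm : code (H (tauW 8 W_pmm)) = 11 := by
  unfold code
  have h1 : ¬ S_comm (H (tauW 8 W_pmm)) :=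
    comm_not (x := ⟨0, 1, 1⟩) (y := ⟨3, 0, 0⟩) (by rw [H_pmm]; decide) (by rw [H_pmm]; decide)
      (by decide)
  have h2 : S_inv (H (tauW 8 W_pmm)) :=
    inv_of (x := ⟨3, 0, 0⟩) (by rw [H_pmm]; decide) (by decide) (by decide)
  have h3 : ¬ S_ord3 (H (tauW 8 W_pmm)) := by
    apply ord3_not
    rintro ⟨k, s, t⟩ hx h
    rw [H_pmm] at hx
    rcases hx with ⟨rfl | rfl | rfl | rfl, hx⟩ <;>
      simp [Trip.mul_mk, Trip.one_mk, mulk, A11, A12, A21, A22] at h ⊢ <;> omega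
  have h4 : ¬ S_a (H (tauW 8 W_pmm)) :=
    a_not (x := ⟨0, 8, 0⟩) (y := ⟨6, 1, 1⟩) (by rw [H_pmm]; decide) (by rw [H_pmm]; decide)
      (by decide) (by decide) (by decide)
  have h5 : ¬ S_g (H (tauW 8 W_pmm)) :=
    g_not (x := ⟨6, 0, 0⟩) (y := ⟨0, 1, 1⟩) (by rw [H_pmm]; decide) (by rw [H_pmm]; decide)
      (by decide) (by decide) (by decide) (by decide) (by decide)
  have h6 : ¬ S_d (H (tauW 8 W_pmm)) :=
    d_not (x := ⟨3, 0, 0⟩) (y := ⟨6, 0, 0⟩) (z := ⟨3, 0, 0⟩) (w := ⟨3, 1, 1⟩)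
      (by rw [H_pmm]; decide) (by rw [H_pmm]; decide) (by rw [H_pmm]; decide)
      (by rw [H_pmm]; decide) (by decide)
  have h7 : S_kl (H (tauW 8 W_pmm)) :=
    kl_of (x := ⟨3, 0, 0⟩) (y := ⟨6, 0, 0⟩) (by rw [H_pmm]; decide) (by rw [H_pmm]; decide)
      (by decide)
  have h8 : S_f (H (tauW 8 W_pmm)) := by
    apply f_of
    rintro ⟨k, s, t⟩ hx h h'
    rw [H_pmm] at hx
    rcases hx with ⟨rfl | rfl | rfl | rfl, hx⟩
    · exfalso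
      simp [Trip.mul_mk, Trip.one_mk, mulk, A11, A12, A21, A22] at h h'
      omega
    · refine ⟨⟨6, (s - t) / 2, -((s - t) / 2)⟩, ?_, ?_, ?_, ?_, ?_⟩
      · rw [H_pmm]
        refine ⟨by decide, ?_⟩
        omega
      · simp [Trip.one_mk]
      · simp
      · simp [Trip.mul_mk, Trip.one_mk, mulk, A11, A12, A21, A22]
      · simp [Trip.mul_mk, Trip.one_mk, mulk, A11, A12, A21, A22]
        omega
    · refine ⟨⟨3, 0, -2 * s⟩, ?_, ?_, ?_, ?_, ?_⟩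
      · rw [H_pmm]
        refine ⟨by decide, ?_⟩
        simp [Trip.mul_mk, Trip.one_mk, mulk, A11, A12, A21, A22] at h'
        omega
      · simp [Trip.one_mk]
      · simp
      · simp [Trip.mul_mk, Trip.one_mk, mulk, A11, A12, A21, A22]
      · simp [Trip.mul_mk, Trip.one_mk, mulk, A11, A12, A21, A22] at h' ⊢
        omega
    · refine ⟨⟨3, s, s⟩, ?_, ?_, ?_, ?_, ?_⟩
      · rw [H_pmm]
        refine ⟨by decide, ?_⟩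
        simp
      · simp [Trip.one_mk]
      · simp
      · simp [Trip.mul_mk, Trip.one_mk, mulk, A11, A12, A21, A22]
      · simp [Trip.mul_mk, Trip.one_mk, mulk, A11, A12, A21, A22] at h' ⊢
        omega
  rw [if_neg h1, if_neg (not_not.2 h2), if_neg h3, if_neg h4, if_neg h5, if_neg h6, if_pos h7,
    if_pos h8]

lemma code_cmm : code (H (tauW 1 W_cmm)) = 12 := by
  unfold code
  have h1 : ¬ S_comm (H (tauW 1 W_cmm)) :=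
    comm_not (x := ⟨0, 1, 1⟩) (y := ⟨3, 0, 0⟩) (by rw [H_cmm]; decide) (by rw [H_cmm]; decide)
      (by decide)
  have h2 : S_inv (H (tauW 1 W_cmm)) :=
    inv_of (x := ⟨3, 0, 0⟩) (by rw [H_cmm]; decide) (by decide) (by decide)
  have h3 : ¬ S_ord3 (H (tauW 1 W_cmm)) := by
    apply ord3_not
    rintro ⟨k, s, t⟩ hx h
    rw [H_cmm] at hx
    rcases hx with rfl | rfl | rfl | rfl <;>
      simp [Trip.mul_mk, Trip.one_mk, mulk, A11, A12, A21, A22] at h ⊢ <;> omega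
  have h4 : ¬ S_a (H (tauW 1 W_cmm)) :=
    a_not (x := ⟨0, 1, 0⟩) (y := ⟨6, 1, 1⟩) (by rw [H_cmm]; decide) (by rw [H_cmm]; decide)
      (by decide) (by decide) (by decide)
  have h5 : ¬ S_g (H (tauW 1 W_cmm)) :=
    g_not (x := ⟨6, 0, 0⟩) (y := ⟨0, 1, 1⟩) (by rw [H_cmm]; decide) (by rw [H_cmm]; decide)
      (by decide) (by decide) (by decide) (by decide) (by decide)
  have h6 : ¬ S_d (H (tauW 1 W_cmm)) :=
    d_not (x := ⟨3, 0, 0⟩) (y := ⟨6, 0, 0⟩) (z := ⟨3, 0, 0⟩) (w := ⟨3, 1, 1⟩)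
      (by rw [H_cmm]; decide) (by rw [H_cmm]; decide) (by rw [H_cmm]; decide)
      (by rw [H_cmm]; decide) (by decide)
  have h7 : S_kl (H (tauW 1 W_cmm)) :=
    kl_of (x := ⟨3, 0, 0⟩) (y := ⟨6, 0, 0⟩) (by rw [H_cmm]; decide) (by rw [H_cmm]; decide)
      (by decide)
  have h8 : ¬ S_f (H (tauW 1 W_cmm)) := by
    apply f_not (x := ⟨3, 1, 0⟩) (by rw [H_cmm]; decide) (by decide) (by decide)
    rintro ⟨k, s, t⟩ hx h h' h''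
    rw [H_cmm] at hx
    rcases hx with rfl | rfl | rfl | rfl <;>
      simp [Trip.mul_mk, Trip.one_mk, mulk, A11, A12, A21, A22] at h h' h'' ⊢ <;> omega
  rw [if_neg h1, if_neg (not_not.2 h2), if_neg h3, if_neg h4, if_neg h5, if_neg h6, if_pos h7,
    if_neg h8]

lemma code_pmg : code (H (tauW 2 W_pmg)) = 13 := by
  unfold code
  have h1 : ¬ S_comm (H (tauW 2 W_pmg)) :=
    comm_not (x := ⟨0, 1, 0⟩) (y := ⟨3, 0, 1⟩) (by rw [H_pmg]; decide) (by rw [H_pmg]; decide)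
      (by decide)
  have h2 : S_inv (H (tauW 2 W_pmg)) :=
    inv_of (x := ⟨3, 0, 1⟩) (by rw [H_pmg]; decide) (by decide) (by decide)
  have h3 : ¬ S_ord3 (H (tauW 2 W_pmg)) := by
    apply ord3_not
    rintro ⟨k, s, t⟩ hx h
    rw [H_pmg] at hx
    rcases hx with ⟨rfl | rfl, hx⟩ | ⟨rfl | rfl, hx⟩ <;>
      simp [Trip.mul_mk, Trip.one_mk, mulk, A11, A12, A21, A22] at h ⊢ <;> omega
  have h4 : ¬ S_a (H (tauW 2 W_pmg)) :=
    a_not (x := ⟨0, 1, 0⟩) (y := ⟨8, 0, 1⟩) (by rw [H_pmg]; decide) (by rw [H_pmg]; decide)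
      (by decide) (by decide) (by decide)
  have h5 : ¬ S_g (H (tauW 2 W_pmg)) :=
    g_not (x := ⟨11, 0, 0⟩) (y := ⟨0, 1, 0⟩) (by rw [H_pmg]; decide) (by rw [H_pmg]; decide)
      (by decide) (by decide) (by decide) (by decide) (by decide)
  have h6 : ¬ S_d (H (tauW 2 W_pmg)) :=
    d_not (x := ⟨3, 0, 1⟩) (y := ⟨11, 0, 0⟩) (z := ⟨3, 0, 1⟩) (w := ⟨3, 1, 1⟩)
      (by rw [H_pmg]; decide) (by rw [H_pmg]; decide) (by rw [H_pmg]; decide)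
      (by rw [H_pmg]; decide) (by decide)
  have h7 : ¬ S_kl (H (tauW 2 W_pmg)) := by
    apply kl_not
    rintro ⟨k, s, t⟩ hx ⟨l, p, q⟩ hy h1 h2 h3 h4 h5
    rw [H_pmg] at hx hy
    rcases hx with ⟨rfl | rfl, hx⟩ | ⟨rfl | rfl, hx⟩ <;>
      rcases hy with ⟨rfl | rfl, hy⟩ | ⟨rfl | rfl, hy⟩ <;>
      simp [Trip.mul_mk, Trip.one_mk, mulk, A11, A12, A21, A22] at h1 h2 h3 h4 h5 ⊢ <;> omega
  rw [if_neg h1, if_neg (not_not.2 h2), if_neg h3, if_neg h4, if_neg h5, if_neg h6, if_neg h7]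

end Pool.Agent.H77.Loz
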