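import Pool.Agent.H77.Loz.Check

set_option autoImplicit false

namespace Pool.Agent.H77.Loz

def W_p1 : ℕ := 109359574520305083284763
def W_p2 : ℕ := 2271
def W_pm : ℕ := 68655925211402070
def W_pg : ℕ := 234645157937041459236872642346332219803699327999570632810238714676400
def W_cm : ℕ := 11211462
def W_pmm : ℕ := 307744069831489034645678281440
def W_pmg : ℕ := 30
def W_pgg : ℕ := 66498038603440920
def W_cmm : ℕ := 0
def W_p3 : ℕ := 66830855273053730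
def W_p3m1 : ℕ := 44079006383788194
def W_p31m : ℕ := 16957
def W_p6 : ℕ := 47960503274470440
def W_p6m : ℕ := 5421

def cf_p1 (k : Fin 12) (_s t : ℤ) : Bool := decide (k = 0 ∧ t % 7 = 0)
def cf_p2 (k : Fin 12) (_s t : ℤ) : Bool := decide ((k = 0 ∨ k = 3) ∧ t % 3 = 0)
def cf_pm (k : Fin 12) (_s t : ℤ) : Bool := decide ((k = 0 ∨ k = 11) ∧ t % 6 = 0)
def cf_pg (k : Fin 12) (_s t : ℤ) : Bool := decide ((k = 0 ∧ t % 12 = 0) ∨ (k = 8 ∧ t % 12 = 6))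
def cf_cm (k : Fin 12) (s t : ℤ) : Bool := decide ((k = 0 ∨ k = 9) ∧ s % 4 = 0 ∧ t % 4 = 0)
def cf_pmm (k : Fin 12) (s t : ℤ) : Bool :=
  decide ((k = 0 ∨ k = 3 ∨ k = 6 ∨ k = 9) ∧ (t - s) % 8 = 0)
def cf_pmg (k : Fin 12) (_s t : ℤ) : Bool :=
  decide (((k = 0 ∨ k = 11) ∧ t % 2 = 0) ∨ ((k = 3 ∨ k = 8) ∧ t % 2 = 1))
def cf_pgg (k : Fin 12) (s t : ℤ) : Bool :=
  decide ((k = 0 ∧ s % 3 = 0 ∧ (t - s) % 6 = 0) ∨ (k = 3 ∧ s % 3 = 1 ∧ (t - s) % 6 = 2) ∨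
    (k = 6 ∧ s % 3 = 2 ∧ (t - s) % 6 = 5) ∨ (k = 9 ∧ s % 3 = 2 ∧ (t - s) % 6 = 3))
def cf_cmm (k : Fin 12) (_s _t : ℤ) : Bool := decide (k = 0 ∨ k = 3 ∨ k = 6 ∨ k = 9)
def cf_p3 (k : Fin 12) (s t : ℤ) : Bool :=
  decide ((k = 0 ∨ k = 2 ∨ k = 4) ∧ s % 6 = 0 ∧ t % 6 = 0)
def cf_p3m1 (k : Fin 12) (s t : ℤ) : Bool :=
  decide ((k = 0 ∨ k = 2 ∨ k = 4 ∨ k = 7 ∨ k = 9 ∨ k = 11) ∧ s % 2 = 0 ∧ (t - s) % 6 = 0)
def cf_p31m (k : Fin 12) (s t : ℤ) : Bool :=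
  decide ((k = 0 ∨ k = 2 ∨ k = 4 ∨ k = 7 ∨ k = 9 ∨ k = 11) ∧ s % 3 = 0 ∧ t % 3 = 0)
def cf_p6 (k : Fin 12) (s t : ℤ) : Bool :=
  decide ((k = 0 ∨ k = 1 ∨ k = 2 ∨ k = 3 ∨ k = 4 ∨ k = 5) ∧ s % 6 = 0 ∧ t % 6 = 0)
def cf_p6m (_k : Fin 12) (s t : ℤ) : Bool := decide ((t - s) % 3 = 0)

lemma good_p1 : Good (tauW 7 W_p1) := good_of_check (by norm_num) (by decide +kernel)
lemma good_p2 : Good (tauW 3 W_p2) := good_of_check (by norm_num) (by decide +kernel)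
lemma good_pm : Good (tauW 6 W_pm) := good_of_check (by norm_num) (by decide +kernel)
lemma good_pg : Good (tauW 12 W_pg) := good_of_check (by norm_num) (by decide +kernel)
lemma good_cm : Good (tauW 4 W_cm) := good_of_check (by norm_num) (by decide +kernel)
lemma good_pmm : Good (tauW 8 W_pmm) := good_of_check (by norm_num) (by decide +kernel)
lemma good_pmg : Good (tauW 2 W_pmg) := good_of_check (by norm_num) (by decide +kernel)
lemma good_pgg : Good (tauW 6 W_pgg) := good_of_check (by norm_num) (by decide +kernel)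
lemma good_cmm : Good (tauW 1 W_cmm) := good_of_check (by norm_num) (by decide +kernel)
lemma good_p3 : Good (tauW 6 W_p3) := good_of_check (by norm_num) (by decide +kernel)
lemma good_p3m1 : Good (tauW 6 W_p3m1) := good_of_check (by norm_num) (by decide +kernel)
lemma good_p31m : Good (tauW 3 W_p31m) := good_of_check (by norm_num) (by decide +kernel)
lemma good_p6 : Good (tauW 6 W_p6) := good_of_check (by norm_num) (by decide +kernel)
lemma good_p6m : Good (tauW 3 W_p6m) := good_of_check (by norm_num) (by decide +kernel)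

lemma sym_p1 (k : Fin 12) (s t : ℤ) : isoOf k s t ∈ Sym (tauW 7 W_p1) ↔ cf_p1 k s t = true := by
  refine sym_iff (by norm_num) cf_p1 ?_ (by decide +kernel) k s t
  intro k s t a b
  have h1 : (t + ((7 : ℕ) : ℤ) * b) % 7 = t % 7 := by omega
  unfold cf_p1; rw [h1]
lemma sym_p2 (k : Fin 12) (s t : ℤ) : isoOf k s t ∈ Sym (tauW 3 W_p2) ↔ cf_p2 k s t = true := by
  refine sym_iff (by norm_num) cf_p2 ?_ (by decide +kernel) k s t
  intro k s t a b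
  have h1 : (t + ((3 : ℕ) : ℤ) * b) % 3 = t % 3 := by omega
  unfold cf_p2; rw [h1]
lemma sym_pm (k : Fin 12) (s t : ℤ) : isoOf k s t ∈ Sym (tauW 6 W_pm) ↔ cf_pm k s t = true := by
  refine sym_iff (by norm_num) cf_pm ?_ (by decide +kernel) k s t
  intro k s t a b
  have h1 : (t + ((6 : ℕ) : ℤ) * b) % 6 = t % 6 := by omega
  unfold cf_pm; rw [h1]
lemma sym_pg (k : Fin 12) (s t : ℤ) : isoOf k s t ∈ Sym (tauW 12 W_pg) ↔ cf_pg k s t = true := by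
  refine sym_iff (by norm_num) cf_pg ?_ (by decide +kernel) k s t
  intro k s t a b
  have h1 : (t + ((12 : ℕ) : ℤ) * b) % 12 = t % 12 := by omega
  unfold cf_pg; rw [h1]
lemma sym_cm (k : Fin 12) (s t : ℤ) : isoOf k s t ∈ Sym (tauW 4 W_cm) ↔ cf_cm k s t = true := by
  refine sym_iff (by norm_num) cf_cm ?_ (by decide +kernel) k s t
  intro k s t a b
  have h1 : (t + ((4 : ℕ) : ℤ) * b) % 4 = t % 4 := by omega
  have h2 : (s + ((4 : ℕ) : ℤ) * a) % 4 = s % 4 := by omega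
  unfold cf_cm; rw [h1, h2]
lemma sym_pmm (k : Fin 12) (s t : ℤ) :
    isoOf k s t ∈ Sym (tauW 8 W_pmm) ↔ cf_pmm k s t = true := by
  refine sym_iff (by norm_num) cf_pmm ?_ (by decide +kernel) k s t
  intro k s t a b
  have h1 : (t + ((8 : ℕ) : ℤ) * b - (s + ((8 : ℕ) : ℤ) * a)) % 8 = (t - s) % 8 := by omega
  unfold cf_pmm; rw [h1]
lemma sym_pmg (k : Fin 12) (s t : ℤ) :
    isoOf k s t ∈ Sym (tauW 2 W_pmg) ↔ cf_pmg k s t = true := by
  refine sym_iff (by norm_num) cf_pmg ?_ (by decide +kernel) k s t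
  intro k s t a b
  have h1 : (t + ((2 : ℕ) : ℤ) * b) % 2 = t % 2 := by omega
  unfold cf_pmg; rw [h1]
lemma sym_pgg (k : Fin 12) (s t : ℤ) :
    isoOf k s t ∈ Sym (tauW 6 W_pgg) ↔ cf_pgg k s t = true := by
  refine sym_iff (by norm_num) cf_pgg ?_ (by decide +kernel) k s t
  intro k s t a b
  have h1 : (t + ((6 : ℕ) : ℤ) * b - (s + ((6 : ℕ) : ℤ) * a)) % 6 = (t - s) % 6 := by omega
  have h2 : (s + ((6 : ℕ) : ℤ) * a) % 3 = s % 3 := by omega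
  unfold cf_pgg; rw [h1, h2]
lemma sym_cmm (k : Fin 12) (s t : ℤ) :
    isoOf k s t ∈ Sym (tauW 1 W_cmm) ↔ cf_cmm k s t = true := by
  refine sym_iff (by norm_num) cf_cmm ?_ (by decide +kernel) k s t
  intro k s t a b
  rfl
lemma sym_p3 (k : Fin 12) (s t : ℤ) : isoOf k s t ∈ Sym (tauW 6 W_p3) ↔ cf_p3 k s t = true := by
  refine sym_iff (by norm_num) cf_p3 ?_ (by decide +kernel) k s t
  intro k s t a b
  have h1 : (t + ((6 : ℕ) : ℤ) * b) % 6 = t % 6 := by omega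
  have h2 : (s + ((6 : ℕ) : ℤ) * a) % 6 = s % 6 := by omega
  unfold cf_p3; rw [h1, h2]
lemma sym_p3m1 (k : Fin 12) (s t : ℤ) :
    isoOf k s t ∈ Sym (tauW 6 W_p3m1) ↔ cf_p3m1 k s t = true := by
  refine sym_iff (by norm_num) cf_p3m1 ?_ (by decide +kernel) k s t
  intro k s t a b
  have h1 : (t + ((6 : ℕ) : ℤ) * b - (s + ((6 : ℕ) : ℤ) * a)) % 6 = (t - s) % 6 := by omega
  have h2 : (s + ((6 : ℕ) : ℤ) * a) % 2 = s % 2 := by omega
  unfold cf_p3m1; rw [h1, h2]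
lemma sym_p31m (k : Fin 12) (s t : ℤ) :
    isoOf k s t ∈ Sym (tauW 3 W_p31m) ↔ cf_p31m k s t = true := by
  refine sym_iff (by norm_num) cf_p31m ?_ (by decide +kernel) k s t
  intro k s t a b
  have h1 : (t + ((3 : ℕ) : ℤ) * b) % 3 = t % 3 := by omega
  have h2 : (s + ((3 : ℕ) : ℤ) * a) % 3 = s % 3 := by omega
  unfold cf_p31m; rw [h1, h2]
lemma sym_p6 (k : Fin 12) (s t : ℤ) : isoOf k s t ∈ Sym (tauW 6 W_p6) ↔ cf_p6 k s t = true := by
  refine sym_iff (by norm_num) cf_p6 ?_ (by decide +kernel) k s t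
  intro k s t a b
  have h1 : (t + ((6 : ℕ) : ℤ) * b) % 6 = t % 6 := by omega
  have h2 : (s + ((6 : ℕ) : ℤ) * a) % 6 = s % 6 := by omega
  unfold cf_p6; rw [h1, h2]
lemma sym_p6m (k : Fin 12) (s t : ℤ) :
    isoOf k s t ∈ Sym (tauW 3 W_p6m) ↔ cf_p6m k s t = true := by
  refine sym_iff (by norm_num) cf_p6m ?_ (by decide +kernel) k s t
  intro k s t a b
  have h1 : (t + ((3 : ℕ) : ℤ) * b - (s + ((3 : ℕ) : ℤ) * a)) % 3 = (t - s) % 3 := by omega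
  unfold cf_p6m; rw [h1]

end Pool.Agent.H77.Loz
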