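import Mathlib

set_option autoImplicit false

namespace Pool.Agent.H77.Loz

variable (G : Type) [Group G]

def S_comm : Prop := ∀ x y : G, x * y = y * x
def S_inv : Prop := ∃ x : G, x ≠ 1 ∧ x * x = 1
def S_ord3 : Prop := ∃ x : G, x ≠ 1 ∧ x * x * x = 1
def S_a : Prop := ∀ x y : G, x * x ≠ 1 → y * y ≠ 1 → x * y = y * x
def S_g : Prop := ∀ x y : G, x ≠ 1 → x * x = 1 → x * y = y * x → y = 1 ∨ y = x
def S_d : Prop := ∀ x y z w : G, x ≠ 1 → y ≠ 1 → z ≠ 1 → w ≠ 1 → x * x = 1 → y * y = 1 →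
  z * z = 1 → w * w = 1 → (x * y) * (z * w) = (z * w) * (x * y)
def S_c : Prop := ∀ z : G, (∀ x, z * x = x * z) → ∃ y, y * y = z
def S_kl : Prop := ∃ x y : G, x ≠ 1 ∧ y ≠ 1 ∧ x ≠ y ∧ x * x = 1 ∧ y * y = 1 ∧ x * y = y * x
def S_f : Prop := ∀ x : G, x ≠ 1 → x * x = 1 → ∃ y, y ≠ 1 ∧ y ≠ x ∧ y * y = 1 ∧ x * y = y * x
def S_ord6 : Prop := ∃ x : G, x * x ≠ 1 ∧ x * x * x ≠ 1 ∧ x * x * x * x * x * x = 1
def S_s3 : Prop := ∀ x : G, x * x * x = 1 → ∃ y, y ≠ 1 ∧ y * y = 1 ∧ x * y * x * y = 1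

open Classical in
noncomputable def code : ℕ :=
  if S_comm G then 0
  else if ¬ S_inv G then (if S_ord3 G then 1 else 2)
  else if S_ord3 G then
    (if S_kl G then 3 else if S_ord6 G then 4 else if S_s3 G then 5 else 6)
  else if S_a G then 7
  else if S_g G then 8
  else if S_d G then (if S_c G then 9 else 10)
  else if S_kl G then (if S_f G then 11 else 12)
  else 13

variable {G} {K : Type} [Group K]

lemma S_comm_of (e : G ≃* K) (h : S_comm G) : S_comm K := by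
  intro x y
  have := congrArg e (h (e.symm x) (e.symm y))
  simpa using this

lemma S_inv_of (e : G ≃* K) (h : S_inv G) : S_inv K := by
  obtain ⟨x, h1, h2⟩ := h
  exact ⟨e x, by simpa using h1, by rw [← map_mul, h2, map_one]⟩

lemma S_ord3_of (e : G ≃* K) (h : S_ord3 G) : S_ord3 K := by
  obtain ⟨x, h1, h2⟩ := h
  exact ⟨e x, by simpa using h1, by rw [← map_mul, ← map_mul, h2, map_one]⟩

lemma pull (e : G ≃* K) (x : K) : ∃ x' : G, e x' = x := ⟨e.symm x, by simp⟩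

lemma S_a_of (e : G ≃* K) (h : S_a G) : S_a K := by
  intro x y h1 h2
  obtain ⟨x, rfl⟩ := pull e x
  obtain ⟨y, rfl⟩ := pull e y
  rw [← map_mul, ← map_mul]
  rw [h x y]
  · rintro hh; apply h1; rw [← map_mul, hh, map_one]
  · rintro hh; apply h2; rw [← map_mul, hh, map_one]

lemma eq_of_e (e : G ≃* K) {x y : G} (h : e x = e y) : x = y := e.injective h

lemma one_of_e (e : G ≃* K) {x : G} (h : e x = 1) : x = 1 := by
  rwa [map_eq_one_iff e e.injective] at h

lemma S_g_of (e : G ≃* K) (h : S_g G) : S_g K := by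
  intro x y h1 h2 h3
  obtain ⟨x, rfl⟩ := pull e x
  obtain ⟨y, rfl⟩ := pull e y
  rw [← map_mul] at h2
  rw [← map_mul, ← map_mul] at h3
  have := h x y (fun hh => h1 (by rw [hh, map_one])) (one_of_e e h2) (e.injective h3)
  rcases this with h | h
  · left; rw [h, map_one]
  · right; rw [h]

lemma S_d_of (e : G ≃* K) (h : S_d G) : S_d K := by
  intro x y z w h1 h2 h3 h4 h5 h6 h7 h8
  obtain ⟨x, rfl⟩ := pull e x
  obtain ⟨y, rfl⟩ := pull e y
  obtain ⟨z, rfl⟩ := pull e z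
  obtain ⟨w, rfl⟩ := pull e w
  simp only [← map_mul] at *
  rw [h x y z w (fun hh => h1 (by rw [hh, map_one])) (fun hh => h2 (by rw [hh, map_one]))
    (fun hh => h3 (by rw [hh, map_one])) (fun hh => h4 (by rw [hh, map_one]))
    (one_of_e e h5) (one_of_e e h6) (one_of_e e h7) (one_of_e e h8)]

lemma S_c_of (e : G ≃* K) (h : S_c G) : S_c K := by
  intro z hz
  obtain ⟨z, rfl⟩ := pull e z
  obtain ⟨y, hy⟩ := h z (fun x => e.injective (by rw [map_mul, map_mul]; exact hz (e x)))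
  exact ⟨e y, by rw [← map_mul, hy]⟩

lemma S_kl_of (e : G ≃* K) (h : S_kl G) : S_kl K := by
  obtain ⟨x, y, h1, h2, h3, h4, h5, h6⟩ := h
  exact ⟨e x, e y, by simpa using h1, by simpa using h2, by simpa using h3,
    by rw [← map_mul, h4, map_one], by rw [← map_mul, h5, map_one],
    by rw [← map_mul, h6, map_mul]⟩

lemma S_f_of (e : G ≃* K) (h : S_f G) : S_f K := by
  intro x h1 h2
  obtain ⟨x, rfl⟩ := pull e x
  rw [← map_mul] at h2
  obtain ⟨y, g1, g2, g3, g4⟩ := h x (fun hh => h1 (by rw [hh, map_one])) (one_of_e e h2)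
  exact ⟨e y, by simpa using g1, by simpa using g2, by rw [← map_mul, g3, map_one],
    by rw [← map_mul, g4, map_mul]⟩

lemma S_ord6_of (e : G ≃* K) (h : S_ord6 G) : S_ord6 K := by
  obtain ⟨x, h1, h2, h3⟩ := h
  refine ⟨e x, ?_, ?_, ?_⟩
  · intro hh; exact h1 (one_of_e e (by rw [map_mul, hh]))
  · intro hh; exact h2 (one_of_e e (by rw [map_mul, map_mul, hh]))
  · rw [← map_mul, ← map_mul, ← map_mul, ← map_mul, ← map_mul, h3, map_one]

lemma S_s3_of (e : G ≃* K) (h : S_s3 G) : S_s3 K := by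
  intro x h1
  obtain ⟨x, rfl⟩ := pull e x
  rw [← map_mul, ← map_mul] at h1
  obtain ⟨y, g1, g2, g3⟩ := h x (one_of_e e h1)
  exact ⟨e y, by simpa using g1, by rw [← map_mul, g2, map_one],
    by rw [← map_mul, ← map_mul, ← map_mul, g3, map_one]⟩

lemma code_congr (e : G ≃* K) : code G = code K := by
  have h1 : S_comm G = S_comm K := propext ⟨S_comm_of e, S_comm_of e.symm⟩
  have h2 : S_inv G = S_inv K := propext ⟨S_inv_of e, S_inv_of e.symm⟩
  have h3 : S_ord3 G = S_ord3 K := propext ⟨S_ord3_of e, S_ord3_of e.symm⟩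
  have h4 : S_a G = S_a K := propext ⟨S_a_of e, S_a_of e.symm⟩
  have h5 : S_g G = S_g K := propext ⟨S_g_of e, S_g_of e.symm⟩
  have h6 : S_d G = S_d K := propext ⟨S_d_of e, S_d_of e.symm⟩
  have h7 : S_c G = S_c K := propext ⟨S_c_of e, S_c_of e.symm⟩
  have h8 : S_kl G = S_kl K := propext ⟨S_kl_of e, S_kl_of e.symm⟩
  have h9 : S_f G = S_f K := propext ⟨S_f_of e, S_f_of e.symm⟩
  have h10 : S_ord6 G = S_ord6 K := propext ⟨S_ord6_of e, S_ord6_of e.symm⟩
  have h11 : S_s3 G = S_s3 K := propext ⟨S_s3_of e, S_s3_of e.symm⟩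
  unfold code
  rw [h1, h2, h3, h4, h5, h6, h7, h8, h9, h10, h11]

end Pool.Agent.H77.Loz
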