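import Pool.Agent.H77.Loz.Trip
import Pool.Agent.H77.Loz.Sent

set_option autoImplicit false

namespace Pool.Agent.H77.Loz

variable {L : Subgroup Trip}

lemma comm_of (h : ∀ x ∈ L, ∀ y ∈ L, x * y = y * x) : S_comm L := by
  rintro ⟨x, hx⟩ ⟨y, hy⟩
  exact Subtype.ext (h x hx y hy)
lemma comm_not {x y : Trip} (hx : x ∈ L) (hy : y ∈ L) (h : x * y ≠ y * x) : ¬ S_comm L := by
  intro hc
  exact h (congrArg Subtype.val (hc ⟨x, hx⟩ ⟨y, hy⟩))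
lemma inv_of {x : Trip} (hx : x ∈ L) (h1 : x ≠ 1) (h2 : x * x = 1) : S_inv L :=
  ⟨⟨x, hx⟩, fun h => h1 (congrArg Subtype.val h), Subtype.ext h2⟩
lemma inv_not (h : ∀ x ∈ L, x * x = 1 → x = 1) : ¬ S_inv L := by
  rintro ⟨⟨x, hx⟩, h1, h2⟩
  exact h1 (Subtype.ext (h x hx (congrArg Subtype.val h2)))
lemma ord3_of {x : Trip} (hx : x ∈ L) (h1 : x ≠ 1) (h2 : x * x * x = 1) : S_ord3 L :=
  ⟨⟨x, hx⟩, fun h => h1 (congrArg Subtype.val h), Subtype.ext h2⟩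
lemma ord3_not (h : ∀ x ∈ L, x * x * x = 1 → x = 1) : ¬ S_ord3 L := by
  rintro ⟨⟨x, hx⟩, h1, h2⟩
  exact h1 (Subtype.ext (h x hx (congrArg Subtype.val h2)))
lemma ord6_of {x : Trip} (hx : x ∈ L) (h1 : x * x ≠ 1) (h2 : x * x * x ≠ 1)
    (h3 : x * x * x * x * x * x = 1) : S_ord6 L :=
  ⟨⟨x, hx⟩, fun h => h1 (congrArg Subtype.val h), fun h => h2 (congrArg Subtype.val h),
    Subtype.ext h3⟩
lemma ord6_not (h : ∀ x ∈ L, x * x * x * x * x * x = 1 → x * x = 1 ∨ x * x * x = 1) :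
    ¬ S_ord6 L := by
  rintro ⟨⟨x, hx⟩, h1, h2, h3⟩
  rcases h x hx (congrArg Subtype.val h3) with h | h
  · exact h1 (Subtype.ext h)
  · exact h2 (Subtype.ext h)
lemma a_of (h : ∀ x ∈ L, ∀ y ∈ L, x * x ≠ 1 → y * y ≠ 1 → x * y = y * x) : S_a L := by
  rintro ⟨x, hx⟩ ⟨y, hy⟩ h1 h2
  exact Subtype.ext (h x hx y hy (fun hh => h1 (Subtype.ext hh)) (fun hh => h2 (Subtype.ext hh)))
lemma a_not {x y : Trip} (hx : x ∈ L) (hy : y ∈ L) (h1 : x * x ≠ 1) (h2 : y * y ≠ 1)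
    (h : x * y ≠ y * x) : ¬ S_a L := by
  intro hc
  exact h (congrArg Subtype.val (hc ⟨x, hx⟩ ⟨y, hy⟩ (fun hh => h1 (congrArg Subtype.val hh))
    (fun hh => h2 (congrArg Subtype.val hh))))
lemma g_of (h : ∀ x ∈ L, ∀ y ∈ L, x ≠ 1 → x * x = 1 → x * y = y * x → y = 1 ∨ y = x) :
    S_g L := by
  rintro ⟨x, hx⟩ ⟨y, hy⟩ h1 h2 h3
  rcases h x hx y hy (fun hh => h1 (Subtype.ext hh)) (congrArg Subtype.val h2)
    (congrArg Subtype.val h3) with h | h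
  · exact Or.inl (Subtype.ext h)
  · exact Or.inr (Subtype.ext h)
lemma g_not {x y : Trip} (hx : x ∈ L) (hy : y ∈ L) (h1 : x ≠ 1) (h2 : x * x = 1)
    (h3 : x * y = y * x) (h4 : y ≠ 1) (h5 : y ≠ x) : ¬ S_g L := by
  intro hc
  rcases hc ⟨x, hx⟩ ⟨y, hy⟩ (fun hh => h1 (congrArg Subtype.val hh)) (Subtype.ext h2)
    (Subtype.ext h3) with h | h
  · exact h4 (congrArg Subtype.val h)
  · exact h5 (congrArg Subtype.val h)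
lemma d_of (h : ∀ x ∈ L, ∀ y ∈ L, ∀ z ∈ L, ∀ w ∈ L, x ≠ 1 → y ≠ 1 → z ≠ 1 → w ≠ 1 →
    x * x = 1 → y * y = 1 → z * z = 1 → w * w = 1 → (x * y) * (z * w) = (z * w) * (x * y)) :
    S_d L := by
  rintro ⟨x, hx⟩ ⟨y, hy⟩ ⟨z, hz⟩ ⟨w, hw⟩ h1 h2 h3 h4 h5 h6 h7 h8
  exact Subtype.ext (h x hx y hy z hz w hw (fun hh => h1 (Subtype.ext hh))
    (fun hh => h2 (Subtype.ext hh)) (fun hh => h3 (Subtype.ext hh)) (fun hh => h4 (Subtype.ext hh))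
    (congrArg Subtype.val h5) (congrArg Subtype.val h6) (congrArg Subtype.val h7)
    (congrArg Subtype.val h8))
lemma d_not {x y z w : Trip} (hx : x ∈ L) (hy : y ∈ L) (hz : z ∈ L) (hw : w ∈ L)
    (h : (x ≠ 1 ∧ y ≠ 1 ∧ z ≠ 1 ∧ w ≠ 1) ∧ (x * x = 1 ∧ y * y = 1 ∧ z * z = 1 ∧ w * w = 1) ∧
      (x * y) * (z * w) ≠ (z * w) * (x * y)) : ¬ S_d L := by
  intro hc
  obtain ⟨⟨h1, h2, h3, h4⟩, ⟨h5, h6, h7, h8⟩, h9⟩ := h
  exact h9 (congrArg Subtype.val (hc ⟨x, hx⟩ ⟨y, hy⟩ ⟨z, hz⟩ ⟨w, hw⟩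
    (fun hh => h1 (congrArg Subtype.val hh)) (fun hh => h2 (congrArg Subtype.val hh))
    (fun hh => h3 (congrArg Subtype.val hh)) (fun hh => h4 (congrArg Subtype.val hh))
    (Subtype.ext h5) (Subtype.ext h6) (Subtype.ext h7) (Subtype.ext h8)))
lemma c_of (h : ∀ z ∈ L, (∀ x ∈ L, z * x = x * z) → ∃ y ∈ L, y * y = z) : S_c L := by
  rintro ⟨z, hz⟩ h1
  obtain ⟨y, hy, h2⟩ := h z hz (fun x hx => congrArg Subtype.val (h1 ⟨x, hx⟩))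
  exact ⟨⟨y, hy⟩, Subtype.ext h2⟩
lemma c_not {z : Trip} (hz : z ∈ L) (h1 : ∀ x ∈ L, z * x = x * z) (h2 : ∀ y ∈ L, y * y ≠ z) :
    ¬ S_c L := by
  intro hc
  obtain ⟨⟨y, hy⟩, h3⟩ := hc ⟨z, hz⟩ (by rintro ⟨x, hx⟩; exact Subtype.ext (h1 x hx))
  exact h2 y hy (congrArg Subtype.val h3)
lemma kl_of {x y : Trip} (hx : x ∈ L) (hy : y ∈ L) (h : x ≠ 1 ∧ y ≠ 1 ∧ x ≠ y ∧ x * x = 1 ∧
    y * y = 1 ∧ x * y = y * x) : S_kl L := by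
  obtain ⟨h1, h2, h3, h4, h5, h6⟩ := h
  exact ⟨⟨x, hx⟩, ⟨y, hy⟩, fun hh => h1 (congrArg Subtype.val hh),
    fun hh => h2 (congrArg Subtype.val hh), fun hh => h3 (congrArg Subtype.val hh),
    Subtype.ext h4, Subtype.ext h5, Subtype.ext h6⟩
lemma kl_not (h : ∀ x ∈ L, ∀ y ∈ L, x ≠ 1 → y ≠ 1 → x * x = 1 → y * y = 1 → x * y = y * x →
    x = y) : ¬ S_kl L := by
  rintro ⟨⟨x, hx⟩, ⟨y, hy⟩, h1, h2, h3, h4, h5, h6⟩
  exact h3 (Subtype.ext (h x hx y hy (fun hh => h1 (Subtype.ext hh))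
    (fun hh => h2 (Subtype.ext hh)) (congrArg Subtype.val h4) (congrArg Subtype.val h5)
    (congrArg Subtype.val h6)))
lemma f_of (h : ∀ x ∈ L, x ≠ 1 → x * x = 1 → ∃ y ∈ L, y ≠ 1 ∧ y ≠ x ∧ y * y = 1 ∧
    x * y = y * x) : S_f L := by
  rintro ⟨x, hx⟩ h1 h2
  obtain ⟨y, hy, g1, g2, g3, g4⟩ := h x hx (fun hh => h1 (Subtype.ext hh))
    (congrArg Subtype.val h2)
  exact ⟨⟨y, hy⟩, fun hh => g1 (congrArg Subtype.val hh), fun hh => g2 (congrArg Subtype.val hh),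
    Subtype.ext g3, Subtype.ext g4⟩
lemma f_not {x : Trip} (hx : x ∈ L) (h1 : x ≠ 1) (h2 : x * x = 1)
    (h : ∀ y ∈ L, y ≠ 1 → y * y = 1 → x * y = y * x → y = x) : ¬ S_f L := by
  intro hc
  obtain ⟨⟨y, hy⟩, g1, g2, g3, g4⟩ := hc ⟨x, hx⟩ (fun hh => h1 (congrArg Subtype.val hh))
    (Subtype.ext h2)
  exact g2 (Subtype.ext (h y hy (fun hh => g1 (Subtype.ext hh)) (congrArg Subtype.val g3)
    (congrArg Subtype.val g4)))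
lemma s3_of (h : ∀ x ∈ L, x * x * x = 1 → ∃ y ∈ L, y ≠ 1 ∧ y * y = 1 ∧ x * y * x * y = 1) :
    S_s3 L := by
  rintro ⟨x, hx⟩ h1
  obtain ⟨y, hy, g1, g2, g3⟩ := h x hx (congrArg Subtype.val h1)
  exact ⟨⟨y, hy⟩, fun hh => g1 (congrArg Subtype.val hh), Subtype.ext g2, Subtype.ext g3⟩
lemma s3_not {x : Trip} (hx : x ∈ L) (h1 : x * x * x = 1)
    (h : ∀ y ∈ L, y * y = 1 → x * y * x * y = 1 → y = 1) : ¬ S_s3 L := by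
  intro hc
  obtain ⟨⟨y, hy⟩, g1, g2, g3⟩ := hc ⟨x, hx⟩ (Subtype.ext h1)
  exact g1 (Subtype.ext (h y hy (congrArg Subtype.val g2) (congrArg Subtype.val g3)))

end Pool.Agent.H77.Loz
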