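import Pool.Agent.H77.Loz.Codes

set_option autoImplicit false

namespace Pool.Agent.H77.Loz

open Real

/-! ### The prototile -/

lemma ca_add (x y : E) : ca (x + y) = ca x + ca y := by
  simp only [ca, PiLp.add_apply]; ring
lemma cb_add (x y : E) : cb (x + y) = cb x + cb y := by
  simp only [cb, PiLp.add_apply]; ring
lemma ca_smul (r : ℝ) (x : E) : ca (r • x) = r * ca x := by
  simp only [ca, PiLp.smul_apply, smul_eq_mul]; ring
lemma cb_smul (r : ℝ) (x : E) : cb (r • x) = r * cb x := by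
  simp only [cb, PiLp.smul_apply, smul_eq_mul]; ring

lemma continuous_ca : Continuous ca := by
  unfold ca
  fun_prop
lemma continuous_cb : Continuous cb := by
  unfold cb
  fun_prop

lemma convex_P0 : Convex ℝ P0 := by
  intro x hx y hy a b ha hb hab
  rw [mem_P0] at *
  obtain ⟨⟨x1, x2⟩, x3, x4⟩ := hx
  obtain ⟨⟨y1, y2⟩, y3, y4⟩ := hy
  simp only [ca_add, cb_add, ca_smul, cb_smul]
  refine ⟨⟨by positivity, ?_⟩, by positivity, ?_⟩
  · calc a * ca x + b * ca y ≤ a * 1 + b * 1 := by gcongr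
      _ = 1 := by linarith
  · calc a * cb x + b * cb y ≤ a * 1 + b * 1 := by gcongr
      _ = 1 := by linarith

lemma isClosed_P0 : IsClosed P0 := by
  have : P0 = (ca ⁻¹' Set.Icc 0 1) ∩ (cb ⁻¹' Set.Icc 0 1) := by
    ext x; rw [mem_P0]; simp [Set.mem_Icc]
  rw [this]
  exact (isClosed_Icc.preimage continuous_ca).inter (isClosed_Icc.preimage continuous_cb)

lemma mem_interior_P0 {x : E} (h1 : 0 < ca x) (h2 : ca x < 1) (h3 : 0 < cb x) (h4 : cb x < 1) :
    x ∈ interior P0 := by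
  rw [mem_interior]
  refine ⟨(ca ⁻¹' Set.Ioo 0 1) ∩ (cb ⁻¹' Set.Ioo 0 1), ?_, ?_, ⟨⟨h1, h2⟩, ⟨h3, h4⟩⟩⟩
  · rintro y ⟨⟨y1, y2⟩, ⟨y3, y4⟩⟩
    rw [mem_P0]
    exact ⟨⟨y1.le, y2.le⟩, ⟨y3.le, y4.le⟩⟩
  · exact (isOpen_Ioo.preimage continuous_ca).inter (isOpen_Ioo.preimage continuous_cb)

lemma bounded_P0 : Bornology.IsBounded P0 := by
  rw [Metric.isBounded_iff_subset_closedBall (mk 0 0)]
  refine ⟨2, ?_⟩
  intro x hx
  rw [mem_P0] at hx
  obtain ⟨⟨x1, x2⟩, x3, x4⟩ := hx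
  rw [Metric.mem_closedBall]
  have h := dist_sq x (mk 0 0)
  simp only [ca_mk, cb_mk, Q, sub_zero] at h
  have h2 : dist x (mk 0 0) ^ 2 ≤ 2 ^ 2 := by
    rw [h]
    nlinarith [mul_nonneg x1 x3, mul_nonneg (sub_nonneg.2 x2) (sub_nonneg.2 x4),
      mul_nonneg x1 (sub_nonneg.2 x2), mul_nonneg x3 (sub_nonneg.2 x4)]
  exact (pow_le_pow_iff_left₀ dist_nonneg (by norm_num) (by norm_num)).1 h2

lemma homeo_P0 : Nonempty (P0 ≃ₜ Metric.closedBall (0 : EuclideanSpace ℝ (Fin 2)) 1) := by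
  obtain ⟨h, _, h2, _⟩ := exists_homeomorph_image_interior_closure_frontier_eq_unitBall convex_P0
    ⟨mk (1 / 2) (1 / 2), mem_interior_P0 (by simp) (by norm_num) (by simp) (by norm_num)⟩
    bounded_P0
  rw [isClosed_P0.closure_eq] at h2
  exact ⟨(h.image P0).trans (Homeomorph.setCongr h2)⟩

lemma mem_segment_mk {a b c d r : ℝ} (x : E) (h0 : 0 ≤ r) (h1 : r ≤ 1)
    (ha : ca x = (1 - r) * a + r * c) (hb : cb x = (1 - r) * b + r * d) :
    x ∈ segment ℝ (mk a b) (mk c d) := by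
  refine ⟨1 - r, r, by linarith, h0, by ring, ?_⟩
  apply ext'
  · rw [ca_add, ca_smul, ca_smul, ca_mk, ca_mk, ha]
  · rw [cb_add, cb_smul, cb_smul, cb_mk, cb_mk, hb]

open Classical in
lemma frontier_P0 : ∃ s : Finset (EuclideanSpace ℝ (Fin 2) × EuclideanSpace ℝ (Fin 2)),
        frontier P0 ⊆ ⋃ p ∈ s, segment ℝ p.1 p.2 := by
  refine ⟨{(mk 0 0, mk 0 1), (mk 1 0, mk 1 1), (mk 0 0, mk 1 0), (mk 0 1, mk 1 1)}, ?_⟩
  intro x hx
  rw [frontier, isClosed_P0.closure_eq] at hx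
  obtain ⟨hx, hn⟩ := hx
  rw [mem_P0] at hx
  obtain ⟨⟨x1, x2⟩, x3, x4⟩ := hx
  simp only [Finset.mem_insert, Finset.mem_singleton, Set.iUnion_iUnion_eq_or_left,
    Set.iUnion_iUnion_eq_left, Set.mem_union]
  by_cases c1 : ca x = 0
  · left
    exact mem_segment_mk (r := cb x) x x3 x4 (by rw [c1]; ring) (by ring)
  by_cases c2 : ca x = 1
  · right; left
    exact mem_segment_mk (r := cb x) x x3 x4 (by rw [c2]; ring) (by ring)
  by_cases c3 : cb x = 0
  · right; right; left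
    exact mem_segment_mk (r := ca x) x x1 x2 (by ring) (by rw [c3]; ring)
  by_cases c4 : cb x = 1
  · right; right; right
    exact mem_segment_mk (r := ca x) x x1 x2 (by ring) (by rw [c4]; ring)
  exact absurd (mem_interior_P0 (lt_of_le_of_ne x1 (Ne.symm c1)) (lt_of_le_of_ne x2 c2)
    (lt_of_le_of_ne x3 (Ne.symm c3)) (lt_of_le_of_ne x4 c4)) hn

lemma corner_extreme {a b : ℝ} (ha : a = 0 ∨ a = 1) (hb : b = 0 ∨ b = 1) :
    mk a b ∈ Set.extremePoints ℝ P0 := by
  rw [mem_extremePoints]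
  refine ⟨(P0_vert ha hb).1, ?_⟩
  rintro x hx y hy ⟨r, s, hr, hs, hrs, hxy⟩
  rw [mem_P0] at hx hy
  obtain ⟨⟨x1, x2⟩, x3, x4⟩ := hx
  obtain ⟨⟨y1, y2⟩, y3, y4⟩ := hy
  have e1 := congrArg ca hxy
  have e2 := congrArg cb hxy
  rw [ca_add, ca_smul, ca_smul, ca_mk] at e1
  rw [cb_add, cb_smul, cb_smul, cb_mk] at e2
  have key : ∀ u v w : ℝ, 0 ≤ u → u ≤ 1 → 0 ≤ v → v ≤ 1 → (w = 0 ∨ w = 1) → r * u + s * v = w →
      u = w ∧ v = w := by
    intro u v w u0 u1 v0 v1 hw h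
    rcases hw with rfl | rfl
    · have h1 : r * u = 0 := by nlinarith [mul_nonneg hr.le u0, mul_nonneg hs.le v0]
      have h2 : s * v = 0 := by nlinarith [mul_nonneg hr.le u0, mul_nonneg hs.le v0]
      exact ⟨(mul_eq_zero.1 h1).resolve_left hr.ne', (mul_eq_zero.1 h2).resolve_left hs.ne'⟩
    · have h1 : r * (1 - u) = 0 := by
        nlinarith [mul_nonneg hr.le (sub_nonneg.2 u1), mul_nonneg hs.le (sub_nonneg.2 v1)]
      have h2 : s * (1 - v) = 0 := by
        nlinarith [mul_nonneg hr.le (sub_nonneg.2 u1), mul_nonneg hs.le (sub_nonneg.2 v1)]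
      have h3 := (mul_eq_zero.1 h1).resolve_left hr.ne'
      have h4 := (mul_eq_zero.1 h2).resolve_left hs.ne'
      constructor <;> linarith
  obtain ⟨k1, k2⟩ := key _ _ _ x1 x2 y1 y2 ha e1
  obtain ⟨k3, k4⟩ := key _ _ _ x3 x4 y3 y4 hb e2
  exact ⟨ext' (by rw [k1, ca_mk]) (by rw [k3, cb_mk]), ext' (by rw [k2, ca_mk]) (by rw [k4, cb_mk])⟩

lemma mk_ne {a b c d : ℝ} (h : a ≠ c ∨ b ≠ d) : mk a b ≠ mk c d := by
  intro hh
  have h1 := congrArg ca hh
  have h2 := congrArg cb hh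
  rw [ca_mk, ca_mk] at h1
  rw [cb_mk, cb_mk] at h2
  rcases h with h | h
  · exact h h1
  · exact h h2

open Classical in
lemma P0_not_triangle (a b c : E) : P0 ≠ convexHull ℝ {a, b, c} := by
  intro h
  have hsub : ∀ p q : ℝ, (p = 0 ∨ p = 1) → (q = 0 ∨ q = 1) → mk p q ∈ ({a, b, c} : Set E) := by
    intro p q hp hq
    have := corner_extreme hp hq
    rw [h] at this
    exact extremePoints_convexHull_subset this
  have h4 : ({mk 0 0, mk 1 0, mk 0 1, mk 1 1} : Finset E).card = 4 := by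
    rw [Finset.card_insert_of_notMem, Finset.card_insert_of_notMem, Finset.card_insert_of_notMem,
      Finset.card_singleton]
    · simp only [Finset.mem_singleton]
      exact mk_ne (by norm_num)
    · simp only [Finset.mem_insert, Finset.mem_singleton, not_or]
      exact ⟨mk_ne (by norm_num), mk_ne (by norm_num)⟩
    · simp only [Finset.mem_insert, Finset.mem_singleton, not_or]
      exact ⟨mk_ne (by norm_num), mk_ne (by norm_num), mk_ne (by norm_num)⟩
  have hs : ({mk 0 0, mk 1 0, mk 0 1, mk 1 1} : Finset E) ⊆ {a, b, c} := by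
    intro x hx
    simp only [Finset.mem_insert, Finset.mem_singleton] at hx
    have : x ∈ ({a, b, c} : Set E) := by
      rcases hx with rfl | rfl | rfl | rfl
      · exact hsub 0 0 (Or.inl rfl) (Or.inl rfl)
      · exact hsub 1 0 (Or.inr rfl) (Or.inl rfl)
      · exact hsub 0 1 (Or.inl rfl) (Or.inr rfl)
      · exact hsub 1 1 (Or.inr rfl) (Or.inr rfl)
    simpa using this
  have := Finset.card_le_card hs
  have h3 : ({a, b, c} : Finset E).card ≤ 3 := Finset.card_le_three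
  omega

/-! ### The fourteen tilings -/

def taus : Fin 14 → ℤ → ℤ → ℕ :=
  ![tauW 7 W_p1, tauW 3 W_p2, tauW 6 W_pm, tauW 12 W_pg, tauW 4 W_cm, tauW 8 W_pmm, tauW 2 W_pmg,
    tauW 6 W_pgg, tauW 1 W_cmm, tauW 6 W_p3, tauW 6 W_p3m1, tauW 3 W_p31m, tauW 6 W_p6, tauW 3 W_p6m]

def codes : Fin 14 → ℕ := ![0, 7, 10, 2, 9, 11, 13, 8, 12, 1, 5, 6, 4, 3]

lemma good_taus (i : Fin 14) : Good (taus i) := by
  fin_cases i
  · exact good_p1
  · exact good_p2
  · exact good_pm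
  · exact good_pg
  · exact good_cm
  · exact good_pmm
  · exact good_pmg
  · exact good_pgg
  · exact good_cmm
  · exact good_p3
  · exact good_p3m1
  · exact good_p31m
  · exact good_p6
  · exact good_p6m

lemma code_taus (i : Fin 14) : code (H (taus i)) = codes i := by
  fin_cases i
  · exact code_p1
  · exact code_p2
  · exact code_pm
  · exact code_pg
  · exact code_cm
  · exact code_pmm
  · exact code_pmg
  · exact code_pgg
  · exact code_cmm
  · exact code_p3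
  · exact code_p3m1
  · exact code_p31m
  · exact code_p6
  · exact code_p6m

lemma trans_taus (i : Fin 14) :
    isoOf 0 168 0 ∈ Sym (taus i) ∧ isoOf 0 0 168 ∈ Sym (taus i) := by
  fin_cases i
  · exact ⟨(sym_p1 _ _ _).2 (by decide), (sym_p1 _ _ _).2 (by decide)⟩
  · exact ⟨(sym_p2 _ _ _).2 (by decide), (sym_p2 _ _ _).2 (by decide)⟩
  · exact ⟨(sym_pm _ _ _).2 (by decide), (sym_pm _ _ _).2 (by decide)⟩
  · exact ⟨(sym_pg _ _ _).2 (by decide), (sym_pg _ _ _).2 (by decide)⟩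
  · exact ⟨(sym_cm _ _ _).2 (by decide), (sym_cm _ _ _).2 (by decide)⟩
  · exact ⟨(sym_pmm _ _ _).2 (by decide), (sym_pmm _ _ _).2 (by decide)⟩
  · exact ⟨(sym_pmg _ _ _).2 (by decide), (sym_pmg _ _ _).2 (by decide)⟩
  · exact ⟨(sym_pgg _ _ _).2 (by decide), (sym_pgg _ _ _).2 (by decide)⟩
  · exact ⟨(sym_cmm _ _ _).2 (by decide), (sym_cmm _ _ _).2 (by decide)⟩
  · exact ⟨(sym_p3 _ _ _).2 (by decide), (sym_p3 _ _ _).2 (by decide)⟩
  · exact ⟨(sym_p3m1 _ _ _).2 (by decide), (sym_p3m1 _ _ _).2 (by decide)⟩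
  · exact ⟨(sym_p31m _ _ _).2 (by decide), (sym_p31m _ _ _).2 (by decide)⟩
  · exact ⟨(sym_p6 _ _ _).2 (by decide), (sym_p6 _ _ _).2 (by decide)⟩
  · exact ⟨(sym_p6m _ _ _).2 (by decide), (sym_p6m _ _ _).2 (by decide)⟩

lemma isoOf_trans (s t : ℤ) : (isoOf 0 s t : E → E) = fun x => x + mk s t := by
  ext1 x
  apply ext'
  · simp [A11, A12, ca_add]
  · simp [A21, A22, cb_add]

lemma translations (i : Fin 14) : ∃ u v : EuclideanSpace ℝ (Fin 2),
            LinearIndependent ℝ ![u, v] ∧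
            (fun A : Set (EuclideanSpace ℝ (Fin 2)) =>
                (fun x : EuclideanSpace ℝ (Fin 2) => x + u) '' A) '' (Tiling (taus i)) =
                  Tiling (taus i) ∧
            (fun A : Set (EuclideanSpace ℝ (Fin 2)) =>
                (fun x : EuclideanSpace ℝ (Fin 2) => x + v) '' A) '' (Tiling (taus i)) =
                  Tiling (taus i) := by
  refine ⟨mk ((168 : ℤ) : ℝ) ((0 : ℤ) : ℝ), mk ((0 : ℤ) : ℝ) ((168 : ℤ) : ℝ), ?_, ?_, ?_⟩
  · rw [LinearIndependent.pair_iff]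
    intro s t hst
    have h1 := congrArg ca hst
    have h2 := congrArg cb hst
    rw [ca_add, ca_smul, ca_smul, ca_mk, ca_mk] at h1
    rw [cb_add, cb_smul, cb_smul, cb_mk, cb_mk] at h2
    have z1 : ca (0 : E) = 0 := by simp [ca]
    have z2 : cb (0 : E) = 0 := by simp [cb]
    rw [z1] at h1
    rw [z2] at h2
    push_cast at h1 h2
    constructor <;> linarith
  · rw [← isoOf_trans]
    exact (trans_taus i).1
  · rw [← isoOf_trans]
    exact (trans_taus i).2

lemma not_iso {i j : Fin 14} (hij : i ≠ j) (φ : (E ≃ᵢ E) → (E ≃ᵢ E))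
    (hb : Set.BijOn φ (Sym (taus i)) (Sym (taus j)))
    (hm : ∀ g ∈ Sym (taus i), ∀ h ∈ Sym (taus i), φ (g * h) = φ g * φ h) : False := by
  let f : SymG (taus i) →ₙ* SymG (taus j) :=
    { toFun := fun g => ⟨φ g.1, hb.mapsTo g.2⟩
      map_mul' := fun g h => Subtype.ext (hm g.1 g.2 h.1 h.2) }
  have hf : Function.Bijective f := by
    constructor
    · intro x y hxy
      apply Subtype.ext
      exact hb.injOn x.2 y.2 (congrArg Subtype.val hxy)
    · rintro ⟨g, hg⟩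
      obtain ⟨x, hx, rfl⟩ := hb.surjOn hg
      exact ⟨⟨x, hx⟩, rfl⟩
  let e : SymG (taus i) ≃* SymG (taus j) := MulEquiv.ofBijective f hf
  have h1 : code (H (taus i)) = code (H (taus j)) :=
    code_congr (((HequivSym (taus i)).trans e).trans (HequivSym (taus j)).symm)
  rw [code_taus, code_taus] at h1
  revert h1 hij
  clear * -
  revert i j
  decide

end Pool.Agent.H77.Loz
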