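import Pool.Agent.H77.Loz.Basic

set_option autoImplicit false

namespace Pool.Agent.H77.Loz

open Real

/-- entries of the twelve linear parts: `k < 6` is the rotation by `60 k` degrees, `6 + k` is that
rotation after the reflection swapping the two lattice coordinates -/
def A11 : Fin 12 → ℤ := ![1, 0, -1, -1, 0, 1, 0, -1, -1, 0, 1, 1]
def A12 : Fin 12 → ℤ := ![0, -1, -1, 0, 1, 1, 1, 0, -1, -1, 0, 1]
def A21 : Fin 12 → ℤ := ![0, 1, 1, 0, -1, -1, 1, 1, 0, -1, -1, 0]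
def A22 : Fin 12 → ℤ := ![1, 1, 0, -1, -1, 0, 0, 1, 1, 0, -1, -1]

def mulk : Fin 12 → Fin 12 → Fin 12 :=
  ![![0, 1, 2, 3, 4, 5, 6, 7, 8, 9, 10, 11],
    ![1, 2, 3, 4, 5, 0, 7, 8, 9, 10, 11, 6],
    ![2, 3, 4, 5, 0, 1, 8, 9, 10, 11, 6, 7],
    ![3, 4, 5, 0, 1, 2, 9, 10, 11, 6, 7, 8],
    ![4, 5, 0, 1, 2, 3, 10, 11, 6, 7, 8, 9],
    ![5, 0, 1, 2, 3, 4, 11, 6, 7, 8, 9, 10],
    ![6, 11, 10, 9, 8, 7, 0, 5, 4, 3, 2, 1],
    ![7, 6, 11, 10, 9, 8, 1, 0, 5, 4, 3, 2],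
    ![8, 7, 6, 11, 10, 9, 2, 1, 0, 5, 4, 3],
    ![9, 8, 7, 6, 11, 10, 3, 2, 1, 0, 5, 4],
    ![10, 9, 8, 7, 6, 11, 4, 3, 2, 1, 0, 5],
    ![11, 10, 9, 8, 7, 6, 5, 4, 3, 2, 1, 0]]

def invk : Fin 12 → Fin 12 := ![0, 5, 4, 3, 2, 1, 6, 7, 8, 9, 10, 11]

lemma mulk_spec : ∀ k l : Fin 12,
    A11 (mulk k l) = A11 k * A11 l + A12 k * A21 l ∧
    A12 (mulk k l) = A11 k * A12 l + A12 k * A22 l ∧
    A21 (mulk k l) = A21 k * A11 l + A22 k * A21 l ∧
    A22 (mulk k l) = A21 k * A12 l + A22 k * A22 l := by decide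

lemma mulk_invk : ∀ k : Fin 12, mulk k (invk k) = 0 := by decide
lemma invk_mulk : ∀ k : Fin 12, mulk (invk k) k = 0 := by decide

lemma A_inj : ∀ k l : Fin 12, A11 k = A11 l → A12 k = A12 l → A21 k = A21 l → A22 k = A22 l →
    k = l := by decide

lemma A_zero : A11 0 = 1 ∧ A12 0 = 0 ∧ A21 0 = 0 ∧ A22 0 = 1 := by decide

lemma A_Q (k : Fin 12) (a b : ℝ) :
    Q (A11 k * a + A12 k * b) (A21 k * a + A22 k * b) = Q a b := by
  fin_cases k <;> simp [A11, A12, A21, A22, Q] <;> ring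

set_option synthInstance.maxSize 2000 in
lemma A_surj' : ∀ p q p' q' : Fin 3,
    ((p : ℤ) - 1) ^ 2 + ((p : ℤ) - 1) * ((q : ℤ) - 1) + ((q : ℤ) - 1) ^ 2 = 1 →
    ((p' : ℤ) - 1) ^ 2 + ((p' : ℤ) - 1) * ((q' : ℤ) - 1) + ((q' : ℤ) - 1) ^ 2 = 1 →
    ((p : ℤ) - p') ^ 2 + ((p : ℤ) - p') * (q - q') + ((q : ℤ) - q') ^ 2 = 1 →
    ∃ k : Fin 12, A11 k = (p : ℤ) - 1 ∧ A21 k = (q : ℤ) - 1 ∧ A12 k = (p' : ℤ) - 1 ∧
      A22 k = (q' : ℤ) - 1 := by decide

/-- all pairs of lattice vectors which together with 0 form a unit equilateral triangle -/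
lemma A_surj (p q p' q' : ℤ) (hp : -1 ≤ p ∧ p ≤ 1) (hq : -1 ≤ q ∧ q ≤ 1)
    (hp' : -1 ≤ p' ∧ p' ≤ 1) (hq' : -1 ≤ q' ∧ q' ≤ 1)
    (h1 : p ^ 2 + p * q + q ^ 2 = 1) (h2 : p' ^ 2 + p' * q' + q' ^ 2 = 1)
    (h3 : (p - p') ^ 2 + (p - p') * (q - q') + (q - q') ^ 2 = 1) :
    ∃ k : Fin 12, A11 k = p ∧ A21 k = q ∧ A12 k = p' ∧ A22 k = q' := by
  have key : ∀ p : ℤ, -1 ≤ p ∧ p ≤ 1 → ∃ i : Fin 3, (i : ℤ) - 1 = p := by
    rintro p ⟨h1, h2⟩
    have : p = -1 ∨ p = 0 ∨ p = 1 := by omega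
    rcases this with rfl | rfl | rfl
    · exact ⟨0, by decide⟩
    · exact ⟨1, by decide⟩
    · exact ⟨2, by decide⟩
  obtain ⟨i, rfl⟩ := key p hp
  obtain ⟨j, rfl⟩ := key q hq
  obtain ⟨i', rfl⟩ := key p' hp'
  obtain ⟨j', rfl⟩ := key q' hq'
  refine A_surj' i j i' j' h1 h2 ?_
  have e1 : (i : ℤ) - 1 - (i' - 1) = (i : ℤ) - i' := by ring
  have e2 : (j : ℤ) - 1 - (j' - 1) = (j : ℤ) - j' := by ring
  rw [e1, e2] at h3
  exact h3

noncomputable def actF (k : Fin 12) (s t : ℤ) (x : E) : E :=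
  mk (A11 k * ca x + A12 k * cb x + s) (A21 k * ca x + A22 k * cb x + t)

@[simp] lemma ca_actF (k : Fin 12) (s t : ℤ) (x : E) :
    ca (actF k s t x) = A11 k * ca x + A12 k * cb x + s := by simp [actF]
@[simp] lemma cb_actF (k : Fin 12) (s t : ℤ) (x : E) :
    cb (actF k s t x) = A21 k * ca x + A22 k * cb x + t := by simp [actF]

lemma actF_comp (k l : Fin 12) (s t s' t' : ℤ) (x : E) :
    actF k s t (actF l s' t' x) =
      actF (mulk k l) (A11 k * s' + A12 k * t' + s) (A21 k * s' + A22 k * t' + t) x := by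
  obtain ⟨h1, h2, h3, h4⟩ := mulk_spec k l
  apply ext'
  · simp only [ca_actF, cb_actF, h1, h2]
    push_cast
    ring
  · simp only [ca_actF, cb_actF, h3, h4]
    push_cast
    ring

lemma actF_zero (x : E) : actF 0 0 0 x = x := by
  apply ext' <;> simp [A11, A12, A21, A22]

/-- the translation part of the inverse -/
def invs (k : Fin 12) (s t : ℤ) : ℤ := -(A11 (invk k) * s + A12 (invk k) * t)
def invt (k : Fin 12) (s t : ℤ) : ℤ := -(A21 (invk k) * s + A22 (invk k) * t)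

lemma actF_inv_left (k : Fin 12) (s t : ℤ) (x : E) :
    actF (invk k) (invs k s t) (invt k s t) (actF k s t x) = x := by
  rw [actF_comp, invk_mulk]
  have e1 : A11 (invk k) * s + A12 (invk k) * t + invs k s t = 0 := by simp [invs]
  have e2 : A21 (invk k) * s + A22 (invk k) * t + invt k s t = 0 := by simp [invt]
  rw [e1, e2, actF_zero]

lemma inv_trans : ∀ k : Fin 12,
    A11 k * A11 (invk k) + A12 k * A21 (invk k) = 1 ∧
    A11 k * A12 (invk k) + A12 k * A22 (invk k) = 0 ∧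
    A21 k * A11 (invk k) + A22 k * A21 (invk k) = 0 ∧
    A21 k * A12 (invk k) + A22 k * A22 (invk k) = 1 := by decide

lemma actF_inv_right (k : Fin 12) (s t : ℤ) (x : E) :
    actF k s t (actF (invk k) (invs k s t) (invt k s t) x) = x := by
  rw [actF_comp, mulk_invk]
  obtain ⟨h1, h2, h3, h4⟩ := inv_trans k
  have e1 : A11 k * invs k s t + A12 k * invt k s t + s = 0 := by
    simp only [invs, invt]
    linear_combination (-s) * h1 - t * h2
  have e2 : A21 k * invs k s t + A22 k * invt k s t + t = 0 := by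
    simp only [invs, invt]
    linear_combination (-s) * h3 - t * h4
  rw [e1, e2, actF_zero]

lemma actF_isometry (k : Fin 12) (s t : ℤ) : Isometry (actF k s t) := by
  apply Isometry.of_dist_eq
  intro x y
  rw [dist_eq_iff]
  rw [← A_Q k (ca x - ca y) (cb x - cb y)]
  simp only [ca_actF, cb_actF]
  congr 1 <;> ring

/-- the isometry with linear part number `k` and translation part `(s,t)` -/
noncomputable def isoOf (k : Fin 12) (s t : ℤ) : E ≃ᵢ E :=
  IsometryEquiv.mk' (actF k s t) (actF (invk k) (invs k s t) (invt k s t))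
    (actF_inv_right k s t) (actF_isometry k s t)

@[simp] lemma isoOf_apply (k : Fin 12) (s t : ℤ) (x : E) : isoOf k s t x = actF k s t x := rfl

lemma isoOf_mul (k l : Fin 12) (s t s' t' : ℤ) :
    isoOf k s t * isoOf l s' t' =
      isoOf (mulk k l) (A11 k * s' + A12 k * t' + s) (A21 k * s' + A22 k * t' + t) := by
  ext1 x
  rw [IsometryEquiv.mul_apply]
  simp only [isoOf_apply, actF_comp]

lemma isoOf_one : isoOf 0 0 0 = 1 := by
  ext1 x
  simp only [isoOf_apply, actF_zero]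
  rfl

lemma isoOf_inv (k : Fin 12) (s t : ℤ) :
    (isoOf k s t)⁻¹ = isoOf (invk k) (invs k s t) (invt k s t) := by
  rw [inv_eq_iff_mul_eq_one]
  ext1 x
  rw [IsometryEquiv.mul_apply]
  simp only [isoOf_apply, actF_inv_right]
  rfl

lemma isoOf_inj {k l : Fin 12} {s t s' t' : ℤ} :
    isoOf k s t = isoOf l s' t' ↔ k = l ∧ s = s' ∧ t = t' := by
  constructor
  · intro h
    have h0 : isoOf k s t (mk 0 0) = isoOf l s' t' (mk 0 0) := by rw [h]
    have h1 : isoOf k s t (mk 1 0) = isoOf l s' t' (mk 1 0) := by rw [h]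
    have h2 : isoOf k s t (mk 0 1) = isoOf l s' t' (mk 0 1) := by rw [h]
    have h0a := congrArg ca h0
    have h0b := congrArg cb h0
    have h1a := congrArg ca h1
    have h1b := congrArg cb h1
    have h2a := congrArg ca h2
    have h2b := congrArg cb h2
    simp only [isoOf_apply, ca_actF, cb_actF, ca_mk, cb_mk, mul_zero, mul_one, zero_add,
      add_zero] at h0a h0b h1a h1b h2a h2b
    have hs : s = s' := by exact_mod_cast h0a
    have ht : t = t' := by exact_mod_cast h0b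
    subst hs ht
    have g1 : A11 k = A11 l := by exact_mod_cast add_right_cancel h1a
    have g2 : A21 k = A21 l := by exact_mod_cast add_right_cancel h1b
    have g3 : A12 k = A12 l := by exact_mod_cast add_right_cancel h2a
    have g4 : A22 k = A22 l := by exact_mod_cast add_right_cancel h2b
    exact ⟨A_inj k l g1 g3 g2 g4, rfl, rfl⟩
  · rintro ⟨rfl, rfl, rfl⟩
    rfl

/-- an isometry which agrees with the identity on the three points is the identity -/
lemma eq_one_of_fix (g : E ≃ᵢ E) (h0 : g (mk 0 0) = mk 0 0) (h1 : g (mk 1 0) = mk 1 0)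
    (h2 : g (mk 0 1) = mk 0 1) : g = 1 := by
  ext1 x
  change g x = x
  have d0 : dist (g x) (mk 0 0) = dist x (mk 0 0) := by
    conv_lhs => rw [← h0]
    exact g.dist_eq x _
  have d1 : dist (g x) (mk 1 0) = dist x (mk 1 0) := by
    conv_lhs => rw [← h1]
    exact g.dist_eq x _
  have d2 : dist (g x) (mk 0 1) = dist x (mk 0 1) := by
    conv_lhs => rw [← h2]
    exact g.dist_eq x _
  rw [dist_eq_iff] at d0 d1 d2
  simp only [ca_mk, cb_mk, Q, sub_zero] at d0 d1 d2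
  apply ext'
  · linarith
  · linarith

/-- an isometry which maps the three points to lattice points is one of the `isoOf` -/
lemma exists_isoOf (g : E ≃ᵢ E) (a b c d e f : ℤ) (h0 : g (mk 0 0) = mk a b)
    (h1 : g (mk 1 0) = mk c d) (h2 : g (mk 0 1) = mk e f) : ∃ k s t, g = isoOf k s t := by
  have d1 : dist (g (mk 1 0)) (g (mk 0 0)) = dist (mk 1 0) (mk 0 0) := g.dist_eq _ _
  have d2 : dist (g (mk 0 1)) (g (mk 0 0)) = dist (mk 0 1) (mk 0 0) := g.dist_eq _ _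
  have d3 : dist (g (mk 1 0)) (g (mk 0 1)) = dist (mk 1 0) (mk 0 1) := g.dist_eq _ _
  rw [h0, h1, dist_eq_iff] at d1
  rw [h0, h2, dist_eq_iff] at d2
  rw [h1, h2, dist_eq_iff] at d3
  simp only [ca_mk, cb_mk, Q] at d1 d2 d3
  have q1 : (c - a) ^ 2 + (c - a) * (d - b) + (d - b) ^ 2 = 1 := by
    have : (((c - a) ^ 2 + (c - a) * (d - b) + (d - b) ^ 2 : ℤ) : ℝ) = 1 := by
      push_cast; rw [d1]; norm_num
    exact_mod_cast this
  have q2 : (e - a) ^ 2 + (e - a) * (f - b) + (f - b) ^ 2 = 1 := by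
    have : (((e - a) ^ 2 + (e - a) * (f - b) + (f - b) ^ 2 : ℤ) : ℝ) = 1 := by
      push_cast; rw [d2]; norm_num
    exact_mod_cast this
  have q3 : (c - e) ^ 2 + (c - e) * (d - f) + (d - f) ^ 2 = 1 := by
    have : (((c - e) ^ 2 + (c - e) * (d - f) + (d - f) ^ 2 : ℤ) : ℝ) = 1 := by
      push_cast; rw [d3]; norm_num
    exact_mod_cast this
  have bd : ∀ p q : ℤ, p ^ 2 + p * q + q ^ 2 = 1 → (-1 ≤ p ∧ p ≤ 1) ∧ (-1 ≤ q ∧ q ≤ 1) := by
    intro p q h
    refine ⟨⟨?_, ?_⟩, ⟨?_, ?_⟩⟩ <;> nlinarith [sq_nonneg (p + 2 * q), sq_nonneg (2 * p + q)]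
  obtain ⟨k, k1, k2, k3, k4⟩ := A_surj (c - a) (d - b) (e - a) (f - b) (bd _ _ q1).1
    (bd _ _ q1).2 (bd _ _ q2).1 (bd _ _ q2).2 q1 q2 (by
      have : (c - a - (e - a)) = c - e := by ring
      have h2 : (d - b - (f - b)) = d - f := by ring
      rw [this, h2]; exact q3)
  refine ⟨k, a, b, ?_⟩
  have key : (isoOf k a b)⁻¹ * g = 1 := by
    apply eq_one_of_fix
    · rw [IsometryEquiv.mul_apply, h0]
      have : mk a b = isoOf k a b (mk 0 0) := by
        apply ext' <;> simp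
      rw [this, ← IsometryEquiv.mul_apply, inv_mul_cancel]; rfl
    · rw [IsometryEquiv.mul_apply, h1]
      have : mk c d = isoOf k a b (mk 1 0) := by
        apply ext' <;> simp [k1, k2]
      rw [this, ← IsometryEquiv.mul_apply, inv_mul_cancel]; rfl
    · rw [IsometryEquiv.mul_apply, h2]
      have : mk e f = isoOf k a b (mk 0 1) := by
        apply ext' <;> simp [k3, k4]
      rw [this, ← IsometryEquiv.mul_apply, inv_mul_cancel]; rfl
  exact (inv_mul_eq_one.1 key).symm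

end Pool.Agent.H77.Loz
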