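import Pool.Agent.H77.Loz.Iso

set_option autoImplicit false

namespace Pool.Agent.H77.Loz

open Real

def band (n : ℤ) (r : ℝ) : Prop := n % 2 = 1 → |2 * r - n| ≤ 1

/-- the lozenge with doubled centre `(x, y)` (in lattice coordinates) -/
def tile (x y : ℤ) : Set E := {p | band x (ca p) ∧ band y (cb p) ∧ band (x + y) (ca p + cb p)}

lemma mem_tile {x y : ℤ} {p : E} :
    p ∈ tile x y ↔ band x (ca p) ∧ band y (cb p) ∧ band (x + y) (ca p + cb p) := Iff.rfl

/-- new centre coordinates -/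
def cx (k : Fin 12) (s x y : ℤ) : ℤ := A11 k * x + A12 k * y + 2 * s
def cy (k : Fin 12) (t x y : ℤ) : ℤ := A21 k * x + A22 k * y + 2 * t

lemma maps_tile (k : Fin 12) (s t x y : ℤ) {p : E} (hp : p ∈ tile x y) :
    isoOf k s t p ∈ tile (cx k s x y) (cy k t x y) := by
  obtain ⟨h1, h2, h3⟩ := hp
  rw [mem_tile]
  simp only [isoOf_apply, ca_actF, cb_actF, cx, cy]
  generalize ca p = a at *
  generalize cb p = b at *
  unfold band at *
  fin_cases k <;> simp only [A11, A12, A21, A22] <;> dsimp <;>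
    refine ⟨fun h => ?_, fun h => ?_, fun h => ?_⟩ <;>
    push_cast <;>
    first
      | (have h' := h1 (by omega); rw [abs_le] at h' ⊢; push_cast at h';
         constructor <;> linarith [h'.1, h'.2])
      | (have h' := h2 (by omega); rw [abs_le] at h' ⊢; push_cast at h';
         constructor <;> linarith [h'.1, h'.2])
      | (have h' := h3 (by omega); rw [abs_le] at h' ⊢; push_cast at h';
         constructor <;> linarith [h'.1, h'.2])

lemma cx_inv (k : Fin 12) (s t x y : ℤ) :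
    cx (invk k) (invs k s t) (cx k s x y) (cy k t x y) = x := by
  have h := inv_trans (invk k)
  have hh : invk (invk k) = k := by revert k; decide
  rw [hh] at h
  obtain ⟨h1, h2, h3, h4⟩ := h
  simp only [cx, cy, invs]
  linear_combination x * h1 + y * h2

lemma cy_inv (k : Fin 12) (s t x y : ℤ) :
    cy (invk k) (invt k s t) (cx k s x y) (cy k t x y) = y := by
  have h := inv_trans (invk k)
  have hh : invk (invk k) = k := by revert k; decide
  rw [hh] at h
  obtain ⟨h1, h2, h3, h4⟩ := h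
  simp only [cx, cy, invt]
  linear_combination x * h3 + y * h4

lemma image_tile (k : Fin 12) (s t x y : ℤ) :
    isoOf k s t '' tile x y = tile (cx k s x y) (cy k t x y) := by
  ext p
  constructor
  · rintro ⟨q, hq, rfl⟩
    exact maps_tile k s t x y hq
  · intro hp
    refine ⟨(isoOf k s t)⁻¹ p, ?_, ?_⟩
    · rw [isoOf_inv]
      have := maps_tile (invk k) (invs k s t) (invt k s t) _ _ hp
      rwa [cx_inv, cy_inv] at this
    · rw [← IsometryEquiv.mul_apply, mul_inv_cancel]; rfl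

/-! ### Vertices -/

def isVert (K : Set E) (v : E) : Prop := v ∈ K ∧ ∀ x ∈ K, ∀ y ∈ K, midpoint ℝ x y = v → x = y

lemma isVert_image (g : E ≃ᵢ E) {K : Set E} {v : E} (h : isVert K v) : isVert (g '' K) (g v) := by
  refine ⟨⟨v, h.1, rfl⟩, ?_⟩
  rintro _ ⟨x, hx, rfl⟩ _ ⟨y, hy, rfl⟩ hm
  rw [← IsometryEquiv.map_midpoint] at hm
  rw [h.2 x hx y hy (g.injective hm)]

lemma ca_midpoint (x y : E) : ca (midpoint ℝ x y) = (ca x + ca y) / 2 := by
  simp only [ca, midpoint_eq_smul_add, PiLp.smul_apply, PiLp.add_apply, smul_eq_mul, invOf_eq_inv]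
  ring

lemma cb_midpoint (x y : E) : cb (midpoint ℝ x y) = (cb x + cb y) / 2 := by
  simp only [cb, midpoint_eq_smul_add, PiLp.smul_apply, PiLp.add_apply, smul_eq_mul, invOf_eq_inv]
  ring

/-- the prototile -/
def P0 : Set E := tile 1 1

lemma mem_P0 {p : E} : p ∈ P0 ↔ (0 ≤ ca p ∧ ca p ≤ 1) ∧ (0 ≤ cb p ∧ cb p ≤ 1) := by
  unfold P0
  rw [mem_tile]
  unfold band
  norm_num [abs_le]

lemma vert_P0 {v : E} (h : isVert P0 v) :
    (ca v = 0 ∨ ca v = 1) ∧ (cb v = 0 ∨ cb v = 1) := by
  obtain ⟨hv, hm⟩ := h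
  rw [mem_P0] at hv
  obtain ⟨⟨a0, a1⟩, b0, b1⟩ := hv
  constructor
  · by_contra hcon
    push Not at hcon
    obtain ⟨c0, c1⟩ := hcon
    have a0' : 0 < ca v := lt_of_le_of_ne a0 (Ne.symm c0)
    have a1' : ca v < 1 := lt_of_le_of_ne a1 c1
    obtain ⟨ε, he, h1, h2⟩ : ∃ ε : ℝ, 0 < ε ∧ ε ≤ ca v ∧ ε ≤ 1 - ca v :=
      ⟨min (ca v) (1 - ca v), lt_min a0' (by linarith), min_le_left _ _, min_le_right _ _⟩
    have := hm (mk (ca v + ε) (cb v)) (by rw [mem_P0]; simp; constructor <;> constructor <;> linarith)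
      (mk (ca v - ε) (cb v)) (by rw [mem_P0]; simp; constructor <;> constructor <;> linarith)
      (by apply ext'
          · rw [ca_midpoint]; simp
          · rw [cb_midpoint]; simp)
    have := congrArg ca this
    simp at this
    linarith
  · by_contra hcon
    push Not at hcon
    obtain ⟨c0, c1⟩ := hcon
    have a0' : 0 < cb v := lt_of_le_of_ne b0 (Ne.symm c0)
    have a1' : cb v < 1 := lt_of_le_of_ne b1 c1
    obtain ⟨ε, he, h1, h2⟩ : ∃ ε : ℝ, 0 < ε ∧ ε ≤ cb v ∧ ε ≤ 1 - cb v :=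
      ⟨min (cb v) (1 - cb v), lt_min a0' (by linarith), min_le_left _ _, min_le_right _ _⟩
    have := hm (mk (ca v) (cb v + ε)) (by rw [mem_P0]; simp; constructor <;> constructor <;> linarith)
      (mk (ca v) (cb v - ε)) (by rw [mem_P0]; simp; constructor <;> constructor <;> linarith)
      (by apply ext'
          · rw [ca_midpoint]; simp
          · rw [cb_midpoint]; simp)
    have := congrArg cb this
    simp at this
    linarith

lemma P0_vert {a b : ℝ} (ha : a = 0 ∨ a = 1) (hb : b = 0 ∨ b = 1) : isVert P0 (mk a b) := by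
  constructor
  · rw [mem_P0]
    simp only [ca_mk, cb_mk]
    rcases ha with rfl | rfl <;> rcases hb with rfl | rfl <;> norm_num
  · intro x hx y hy hxy
    rw [mem_P0] at hx hy
    obtain ⟨⟨a0, a1⟩, b0, b1⟩ := hx
    obtain ⟨⟨c0, c1⟩, d0, d1⟩ := hy
    have h1 := congrArg ca hxy
    have h2 := congrArg cb hxy
    rw [ca_midpoint, ca_mk] at h1
    rw [cb_midpoint, cb_mk] at h2
    apply ext'
    · rcases ha with rfl | rfl <;> linarith
    · rcases hb with rfl | rfl <;> linarith

/-- an isometry preserving the prototile is one of the `isoOf` -/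
lemma exists_isoOf_of_P0 (g : E ≃ᵢ E) (hg : g '' P0 = P0) : ∃ k s t, g = isoOf k s t := by
  have key : ∀ a b : ℝ, (a = 0 ∨ a = 1) → (b = 0 ∨ b = 1) → ∃ m n : ℤ, g (mk a b) = mk m n := by
    intro a b ha hb
    have h := isVert_image g (P0_vert ha hb)
    rw [hg] at h
    obtain ⟨h1, h2⟩ := vert_P0 h
    have e1 : ∃ m : ℤ, ca (g (mk a b)) = m := by
      rcases h1 with h | h
      · exact ⟨0, by simpa using h⟩
      · exact ⟨1, by simpa using h⟩
    have e2 : ∃ m : ℤ, cb (g (mk a b)) = m := by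
      rcases h2 with h | h
      · exact ⟨0, by simpa using h⟩
      · exact ⟨1, by simpa using h⟩
    obtain ⟨m, hm⟩ := e1
    obtain ⟨n, hn⟩ := e2
    exact ⟨m, n, ext' (by simpa using hm) (by simpa using hn)⟩
  obtain ⟨a, b, h0⟩ := key 0 0 (Or.inl rfl) (Or.inl rfl)
  obtain ⟨c, d, h1⟩ := key 1 0 (Or.inr rfl) (Or.inl rfl)
  obtain ⟨e, f, h2⟩ := key 0 1 (Or.inl rfl) (Or.inr rfl)
  exact exists_isoOf g a b c d e f h0 h1 h2

/-- each tile is congruent to the prototile -/
lemma tile_eq_image (x y : ℤ) (h : ¬ (x % 2 = 0 ∧ y % 2 = 0)) :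
    ∃ k s t, tile x y = isoOf k s t '' P0 := by
  unfold P0
  have hx := Int.emod_two_eq_zero_or_one x
  have hy := Int.emod_two_eq_zero_or_one y
  rcases hx with hx | hx <;> rcases hy with hy | hy
  · exact absurd ⟨hx, hy⟩ h
  · -- x even, y odd: rotate by 60 degrees: (1,1) -> (-1, 2) ; 120 : (1,1) -> (-2, 1)
    refine ⟨2, (x + 2) / 2, (y - 1) / 2, ?_⟩
    rw [image_tile]
    simp only [cx, cy, A11, A12, A21, A22]
    dsimp
    congr 1 <;> omega
  · refine ⟨1, (x + 1) / 2, (y - 2) / 2, ?_⟩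
    rw [image_tile]
    simp only [cx, cy, A11, A12, A21, A22]
    dsimp
    congr 1 <;> omega
  · refine ⟨0, (x - 1) / 2, (y - 1) / 2, ?_⟩
    rw [image_tile]
    simp only [cx, cy, A11, A12, A21, A22]
    dsimp
    congr 1 <;> omega

/-- an isometry mapping a tile to a tile is one of the `isoOf` -/
lemma exists_isoOf_of_tile (g : E ≃ᵢ E) {x y x' y' : ℤ} (h : ¬ (x % 2 = 0 ∧ y % 2 = 0))
    (h' : ¬ (x' % 2 = 0 ∧ y' % 2 = 0)) (hg : g '' tile x y = tile x' y') :
    ∃ k s t, g = isoOf k s t := by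
  obtain ⟨k, s, t, e⟩ := tile_eq_image x y h
  obtain ⟨k', s', t', e'⟩ := tile_eq_image x' y' h'
  rw [e, e'] at hg
  have : ((isoOf k' s' t')⁻¹ * g * isoOf k s t) '' P0 = P0 := by
    have e1 : (((isoOf k' s' t')⁻¹ * g * isoOf k s t : E ≃ᵢ E) : E → E) =
        (((isoOf k' s' t')⁻¹ : E ≃ᵢ E) : E → E) ∘ (g ∘ (isoOf k s t)) := rfl
    rw [e1, Set.image_comp, Set.image_comp, hg, ← Set.image_comp]
    have e2 : (((isoOf k' s' t')⁻¹ : E ≃ᵢ E) : E → E) ∘ (isoOf k' s' t') = id := by
      ext1 z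
      change (((isoOf k' s' t')⁻¹ * (isoOf k' s' t') : E ≃ᵢ E) : E → E) z = z
      rw [inv_mul_cancel]; rfl
    rw [e2, Set.image_id]
  obtain ⟨l, p, q, hl⟩ := exists_isoOf_of_P0 _ this
  have : g = isoOf k' s' t' * isoOf l p q * (isoOf k s t)⁻¹ := by
    rw [← hl]; group
  rw [this, isoOf_inv, isoOf_mul, isoOf_mul]
  exact ⟨_, _, _, rfl⟩

/-! ### Injectivity of `tile` -/

lemma tile_ca_bound {x y : ℤ} (h : ¬ (x % 2 = 0 ∧ y % 2 = 0)) :
    (∀ p ∈ tile x y, |2 * ca p - x| ≤ if x % 2 = 1 then 1 else 2) ∧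
    (∃ p ∈ tile x y, 2 * ca p - x = if x % 2 = 1 then 1 else 2) ∧
    (∃ p ∈ tile x y, 2 * ca p - x = - if x % 2 = 1 then 1 else 2) := by
  have hx := Int.emod_two_eq_zero_or_one x
  have hy := Int.emod_two_eq_zero_or_one y
  rcases hx with hx | hx
  · have hy1 : y % 2 = 1 := by omega
    have hz : (x + y) % 2 = 1 := by omega
    simp only [hx, zero_ne_one, if_false]
    refine ⟨?_, ?_, ?_⟩
    · intro p hp
      obtain ⟨h1, h2, h3⟩ := hp
      have h2' := h2 hy1
      have h3' := h3 hz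
      rw [abs_le] at *
      push_cast at h3'
      constructor <;> linarith [h2'.1, h2'.2, h3'.1, h3'.2]
    · refine ⟨mk ((x + 2) / 2) ((y - 1) / 2), ?_, ?_⟩
      · rw [mem_tile]
        simp only [band, ca_mk, cb_mk]
        refine ⟨fun h => by omega, fun _ => ?_, fun _ => ?_⟩
        · rw [abs_le]; constructor <;> linarith
        · rw [abs_le]; push_cast; constructor <;> linarith
      · simp only [ca_mk]; ring
    · refine ⟨mk ((x - 2) / 2) ((y + 1) / 2), ?_, ?_⟩
      · rw [mem_tile]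
        simp only [band, ca_mk, cb_mk]
        refine ⟨fun h => by omega, fun _ => ?_, fun _ => ?_⟩
        · rw [abs_le]; constructor <;> linarith
        · rw [abs_le]; push_cast; constructor <;> linarith
      · simp only [ca_mk]; ring
  · simp only [hx, if_true]
    refine ⟨?_, ?_, ?_⟩
    · intro p hp
      exact hp.1 hx
    · rcases hy with hy | hy
      · refine ⟨mk ((x + 1) / 2) (y / 2), ?_, ?_⟩
        · rw [mem_tile]
          simp only [band, ca_mk, cb_mk]
          refine ⟨fun _ => ?_, fun h => by omega, fun _ => ?_⟩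
          · rw [abs_le]; constructor <;> linarith
          · rw [abs_le]; push_cast; constructor <;> linarith
        · simp only [ca_mk]; ring
      · refine ⟨mk ((x + 1) / 2) (y / 2), ?_, ?_⟩
        · rw [mem_tile]
          simp only [band, ca_mk, cb_mk]
          refine ⟨fun _ => ?_, fun _ => ?_, fun h => by omega⟩
          · rw [abs_le]; constructor <;> linarith
          · rw [abs_le]; push_cast; constructor <;> linarith
        · simp only [ca_mk]; ring
    · rcases hy with hy | hy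
      · refine ⟨mk ((x - 1) / 2) (y / 2), ?_, ?_⟩
        · rw [mem_tile]
          simp only [band, ca_mk, cb_mk]
          refine ⟨fun _ => ?_, fun h => by omega, fun _ => ?_⟩
          · rw [abs_le]; constructor <;> linarith
          · rw [abs_le]; push_cast; constructor <;> linarith
        · simp only [ca_mk]; ring
      · refine ⟨mk ((x - 1) / 2) (y / 2), ?_, ?_⟩
        · rw [mem_tile]
          simp only [band, ca_mk, cb_mk]
          refine ⟨fun _ => ?_, fun _ => ?_, fun h => by omega⟩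
          · rw [abs_le]; constructor <;> linarith
          · rw [abs_le]; push_cast; constructor <;> linarith
        · simp only [ca_mk]; ring

lemma tile_inj_x {x y x' y' : ℤ} (h : ¬ (x % 2 = 0 ∧ y % 2 = 0))
    (h' : ¬ (x' % 2 = 0 ∧ y' % 2 = 0)) (e : tile x y = tile x' y') : x = x' := by
  obtain ⟨b, ⟨p, hp, ep⟩, ⟨q, hq, eq⟩⟩ := tile_ca_bound h
  obtain ⟨b', ⟨p', hp', ep'⟩, ⟨q', hq', eq'⟩⟩ := tile_ca_bound h'
  have i1 := b p' (e ▸ hp')
  have i2 := b q' (e ▸ hq')
  have i3 := b' p (e ▸ hp)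
  have i4 := b' q (e ▸ hq)
  rw [abs_le] at i1 i2 i3 i4
  have : (x : ℝ) = x' := by
    linarith [i1.1, i1.2, i2.1, i2.2, i3.1, i3.2, i4.1, i4.2]
  exact_mod_cast this

/-- reflection swapping the coordinates -/
lemma tile_inj {x y x' y' : ℤ} (h : ¬ (x % 2 = 0 ∧ y % 2 = 0))
    (h' : ¬ (x' % 2 = 0 ∧ y' % 2 = 0)) (e : tile x y = tile x' y') : x = x' ∧ y = y' := by
  refine ⟨tile_inj_x h h' e, ?_⟩
  have e2 : isoOf 6 0 0 '' tile x y = isoOf 6 0 0 '' tile x' y' := by rw [e]
  rw [image_tile, image_tile] at e2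
  simp only [cx, cy, A11, A12, A21, A22] at e2
  dsimp at e2
  simp only [zero_mul, one_mul, zero_add, add_zero, mul_zero] at e2
  exact tile_inj_x (by omega) (by omega) e2

end Pool.Agent.H77.Loz
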