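import Pool.Agent.H77.Loz.Tile

set_option autoImplicit false

namespace Pool.Agent.H77.Loz

open Real

/-- `τ u v` says with which neighbouring down triangle the up triangle at `(u,v)` is joined. -/
def cenx (τ : ℤ → ℤ → ℕ) (u v : ℤ) : ℤ := if τ u v = 1 then 2 * u else 2 * u + 1
def ceny (τ : ℤ → ℤ → ℕ) (u v : ℤ) : ℤ := if τ u v = 2 then 2 * v else 2 * v + 1

def Tiling (τ : ℤ → ℤ → ℕ) : Set (Set E) := {A | ∃ u v, A = tile (cenx τ u v) (ceny τ u v)}

structure Good (τ : ℤ → ℤ → ℕ) : Prop where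
  lt3 : ∀ u v, τ u v < 3
  cov : ∀ u v, τ u v = 0 ∨ τ (u + 1) v = 1 ∨ τ u (v + 1) = 2
  no01 : ∀ u v, ¬ (τ u v = 0 ∧ τ (u + 1) v = 1)
  no02 : ∀ u v, ¬ (τ u v = 0 ∧ τ u (v + 1) = 2)
  no12 : ∀ u v, ¬ (τ (u + 1) v = 1 ∧ τ u (v + 1) = 2)

lemma cen_odd (τ : ℤ → ℤ → ℕ) (u v : ℤ) : ¬ (cenx τ u v % 2 = 0 ∧ ceny τ u v % 2 = 0) := by
  unfold cenx ceny
  split_ifs <;> omega

lemma tiling_congruent (τ : ℤ → ℤ → ℕ) : ∀ A ∈ Tiling τ, ∃ g : E ≃ᵢ E, A = (⇑g) '' P0 := by
  rintro A ⟨u, v, rfl⟩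
  obtain ⟨k, s, t, h⟩ := tile_eq_image _ _ (cen_odd τ u v)
  exact ⟨_, h⟩

lemma band_even {n : ℤ} {r : ℝ} (h : n % 2 = 0) : band n r := fun h' => by omega

lemma band_of {n : ℤ} {r : ℝ} (h1 : (n : ℝ) - 1 ≤ 2 * r) (h2 : 2 * r ≤ n + 1) : band n r := by
  intro _
  rw [abs_le]
  constructor <;> linarith

lemma cen0 {τ : ℤ → ℤ → ℕ} {u v : ℤ} (h : τ u v = 0) :
    cenx τ u v = 2 * u + 1 ∧ ceny τ u v = 2 * v + 1 := by
  unfold cenx ceny; rw [h]; simp
lemma cen1 {τ : ℤ → ℤ → ℕ} {u v : ℤ} (h : τ u v = 1) :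
    cenx τ u v = 2 * u ∧ ceny τ u v = 2 * v + 1 := by
  unfold cenx ceny; rw [h]; simp
lemma cen2 {τ : ℤ → ℤ → ℕ} {u v : ℤ} (h : τ u v = 2) :
    cenx τ u v = 2 * u + 1 ∧ ceny τ u v = 2 * v := by
  unfold cenx ceny; rw [h]; simp

lemma tiling_cover {τ : ℤ → ℤ → ℕ} (h : Good τ) : ⋃₀ Tiling τ = Set.univ := by
  rw [Set.eq_univ_iff_forall]
  intro p
  rw [Set.mem_sUnion]
  obtain ⟨u, hu⟩ : ∃ u : ℤ, ⌊ca p⌋ = u := ⟨_, rfl⟩
  obtain ⟨v, hv⟩ : ∃ v : ℤ, ⌊cb p⌋ = v := ⟨_, rfl⟩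
  rw [Int.floor_eq_iff] at hu hv
  obtain ⟨u0, u1⟩ := hu
  obtain ⟨v0, v1⟩ := hv
  rcases le_total (ca p + cb p) (u + v + 1) with hs | hs
  · refine ⟨_, ⟨u, v, rfl⟩, ?_⟩
    have h3 := h.lt3 u v
    have : τ u v = 0 ∨ τ u v = 1 ∨ τ u v = 2 := by omega
    rw [mem_tile]
    rcases this with h | h | h
    · rw [(cen0 h).1, (cen0 h).2]
      refine ⟨band_of ?_ ?_, band_of ?_ ?_, band_even (by omega)⟩ <;> push_cast <;> linarith
    · rw [(cen1 h).1, (cen1 h).2]
      refine ⟨band_even (by omega), band_of ?_ ?_, band_of ?_ ?_⟩ <;> push_cast <;> linarith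
    · rw [(cen2 h).1, (cen2 h).2]
      refine ⟨band_of ?_ ?_, band_even (by omega), band_of ?_ ?_⟩ <;> push_cast <;> linarith
  · rcases h.cov u v with h | h | h
    · refine ⟨_, ⟨u, v, rfl⟩, ?_⟩
      rw [mem_tile, (cen0 h).1, (cen0 h).2]
      refine ⟨band_of ?_ ?_, band_of ?_ ?_, band_even (by omega)⟩ <;> push_cast <;> linarith
    · refine ⟨_, ⟨u + 1, v, rfl⟩, ?_⟩
      rw [mem_tile, (cen1 h).1, (cen1 h).2]
      refine ⟨band_even (by omega), band_of ?_ ?_, band_of ?_ ?_⟩ <;> push_cast <;> linarith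
    · refine ⟨_, ⟨u, v + 1, rfl⟩, ?_⟩
      rw [mem_tile, (cen2 h).1, (cen2 h).2]
      refine ⟨band_of ?_ ?_, band_even (by omega), band_of ?_ ?_⟩ <;> push_cast <;> linarith

/-- the strict version of `band` -/
def oband (n : ℤ) (r : ℝ) : Prop := n % 2 = 1 → |2 * r - n| < 1

lemma continuous_mk (p : E) : Continuous fun δ : ℝ => mk (ca p + δ) (cb p + δ) := by
  unfold mk
  fun_prop

lemma interior_tile {x y : ℤ} {p : E} (hp : p ∈ interior (tile x y)) :
    oband x (ca p) ∧ oband y (cb p) ∧ oband (x + y) (ca p + cb p) := by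
  have hc : ContinuousAt (fun δ : ℝ => mk (ca p + δ) (cb p + δ)) 0 := (continuous_mk p).continuousAt
  have h0 : (fun δ : ℝ => mk (ca p + δ) (cb p + δ)) 0 = p := by simp
  have hn : tile x y ∈ nhds ((fun δ : ℝ => mk (ca p + δ) (cb p + δ)) 0) := by
    rw [h0]; exact mem_interior_iff_mem_nhds.1 hp
  have hev := hc hn
  rw [Filter.mem_map, Metric.mem_nhds_iff] at hev
  obtain ⟨ε, he, hb⟩ := hev
  have h1 : mk (ca p + ε / 2) (cb p + ε / 2) ∈ tile x y := by
    have : (ε / 2) ∈ Metric.ball (0 : ℝ) ε := by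
      rw [Metric.mem_ball, Real.dist_eq, abs_lt]; constructor <;> linarith
    exact hb this
  have h2 : mk (ca p + (-(ε / 2))) (cb p + (-(ε / 2))) ∈ tile x y := by
    have : (-(ε / 2)) ∈ Metric.ball (0 : ℝ) ε := by
      rw [Metric.mem_ball, Real.dist_eq, abs_lt]; constructor <;> linarith
    exact hb this
  rw [mem_tile] at h1 h2
  simp only [ca_mk, cb_mk, band] at h1 h2
  obtain ⟨a1, b1, c1⟩ := h1
  obtain ⟨a2, b2, c2⟩ := h2
  unfold oband
  refine ⟨fun h => ?_, fun h => ?_, fun h => ?_⟩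
  · have := a1 h
    have := a2 h
    rw [abs_le] at *
    rw [abs_lt]
    constructor <;> linarith
  · have := b1 h
    have := b2 h
    rw [abs_le] at *
    rw [abs_lt]
    constructor <;> linarith
  · have := c1 h
    have := c2 h
    rw [abs_le] at *
    rw [abs_lt]
    constructor <;> linarith

lemma otile_unique {τ : ℤ → ℤ → ℕ} (h : Good τ) {a b : ℝ} {u v u' v' : ℤ}
    (h1 : oband (cenx τ u v) a ∧ oband (ceny τ u v) b ∧ oband (cenx τ u v + ceny τ u v) (a + b))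
    (h2 : oband (cenx τ u' v') a ∧ oband (ceny τ u' v') b ∧
      oband (cenx τ u' v' + ceny τ u' v') (a + b)) : u = u' ∧ v = v' := by
  have t1 : τ u v = 0 ∨ τ u v = 1 ∨ τ u v = 2 := by have := h.lt3 u v; omega
  have t2 : τ u' v' = 0 ∨ τ u' v' = 1 ∨ τ u' v' = 2 := by have := h.lt3 u' v'; omega
  obtain ⟨a1, b1, c1⟩ := h1
  obtain ⟨a2, b2, c2⟩ := h2
  -- bounds for the three coordinates in terms of the first tile
  have A1 : τ u v ≠ 1 → (u : ℝ) < a ∧ a < u + 1 := by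
    intro ht
    unfold cenx at a1
    rw [if_neg ht] at a1
    have := a1 (by omega)
    rw [abs_lt] at this
    push_cast at this
    constructor <;> linarith
  have B1 : τ u v ≠ 2 → (v : ℝ) < b ∧ b < v + 1 := by
    intro ht
    unfold ceny at b1
    rw [if_neg ht] at b1
    have := b1 (by omega)
    rw [abs_lt] at this
    push_cast at this
    constructor <;> linarith
  have C1 : τ u v ≠ 0 → (u : ℝ) + v < a + b ∧ a + b < u + v + 1 := by
    intro ht
    have t1' : τ u v = 1 ∨ τ u v = 2 := by omega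
    unfold cenx ceny at c1
    rcases t1' with t | t
    · simp only [t] at c1
      norm_num at c1
      have := c1 (by omega)
      rw [abs_lt] at this
      push_cast at this
      constructor <;> linarith
    · simp only [t] at c1
      norm_num at c1
      have := c1 (by omega)
      rw [abs_lt] at this
      push_cast at this
      constructor <;> linarith
  have A2 : τ u' v' ≠ 1 → (u' : ℝ) < a ∧ a < u' + 1 := by
    intro ht
    unfold cenx at a2
    rw [if_neg ht] at a2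
    have := a2 (by omega)
    rw [abs_lt] at this
    push_cast at this
    constructor <;> linarith
  have B2 : τ u' v' ≠ 2 → (v' : ℝ) < b ∧ b < v' + 1 := by
    intro ht
    unfold ceny at b2
    rw [if_neg ht] at b2
    have := b2 (by omega)
    rw [abs_lt] at this
    push_cast at this
    constructor <;> linarith
  have C2 : τ u' v' ≠ 0 → (u' : ℝ) + v' < a + b ∧ a + b < u' + v' + 1 := by
    intro ht
    have t1' : τ u' v' = 1 ∨ τ u' v' = 2 := by omega
    unfold cenx ceny at c2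
    rcases t1' with t | t
    · simp only [t] at c2
      norm_num at c2
      have := c2 (by omega)
      rw [abs_lt] at this
      push_cast at this
      constructor <;> linarith
    · simp only [t] at c2
      norm_num at c2
      have := c2 (by omega)
      rw [abs_lt] at this
      push_cast at this
      constructor <;> linarith
  clear a1 b1 c1 a2 b2 c2
  rcases t1 with t1 | t1 | t1 <;> rcases t2 with t2 | t2 | t2
  · -- 0 0
    obtain ⟨p1, p2⟩ := A1 (by omega)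
    obtain ⟨p3, p4⟩ := B1 (by omega)
    obtain ⟨q1, q2⟩ := A2 (by omega)
    obtain ⟨q3, q4⟩ := B2 (by omega)
    have i1 : (u : ℝ) < u' + 1 := by linarith
    have i2 : (u' : ℝ) < u + 1 := by linarith
    have i3 : (v : ℝ) < v' + 1 := by linarith
    have i4 : (v' : ℝ) < v + 1 := by linarith
    norm_cast at i1 i2 i3 i4
    omega
  · -- 0 1
    exfalso
    obtain ⟨p1, p2⟩ := A1 (by omega)
    obtain ⟨p3, p4⟩ := B1 (by omega)
    obtain ⟨q1, q2⟩ := B2 (by omega)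
    obtain ⟨q3, q4⟩ := C2 (by omega)
    have i1 : (v : ℝ) < v' + 1 := by linarith
    have i2 : (v' : ℝ) < v + 1 := by linarith
    have i3 : (u : ℝ) + v < u' + v' + 1 := by linarith
    have i4 : (u' : ℝ) + v' < u + v + 2 := by linarith
    norm_cast at i1 i2 i3 i4
    have hv : v' = v := by omega
    subst hv
    have : u' = u ∨ u' = u + 1 := by omega
    rcases this with rfl | rfl
    · omega
    · exact h.no01 _ _ ⟨t1, t2⟩
  · -- 0 2
    exfalso
    obtain ⟨p1, p2⟩ := A1 (by omega)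
    obtain ⟨p3, p4⟩ := B1 (by omega)
    obtain ⟨q1, q2⟩ := A2 (by omega)
    obtain ⟨q3, q4⟩ := C2 (by omega)
    have i1 : (u : ℝ) < u' + 1 := by linarith
    have i2 : (u' : ℝ) < u + 1 := by linarith
    have i3 : (u : ℝ) + v < u' + v' + 1 := by linarith
    have i4 : (u' : ℝ) + v' < u + v + 2 := by linarith
    norm_cast at i1 i2 i3 i4
    have hv : u' = u := by omega
    subst hv
    have : v' = v ∨ v' = v + 1 := by omega
    rcases this with rfl | rfl
    · omega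
    · exact h.no02 _ _ ⟨t1, t2⟩
  · -- 1 0
    exfalso
    obtain ⟨p1, p2⟩ := A2 (by omega)
    obtain ⟨p3, p4⟩ := B2 (by omega)
    obtain ⟨q1, q2⟩ := B1 (by omega)
    obtain ⟨q3, q4⟩ := C1 (by omega)
    have i1 : (v' : ℝ) < v + 1 := by linarith
    have i2 : (v : ℝ) < v' + 1 := by linarith
    have i3 : (u' : ℝ) + v' < u + v + 1 := by linarith
    have i4 : (u : ℝ) + v < u' + v' + 2 := by linarith
    norm_cast at i1 i2 i3 i4
    have hv : v = v' := by omega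
    subst hv
    have : u = u' ∨ u = u' + 1 := by omega
    rcases this with rfl | rfl
    · omega
    · exact h.no01 _ _ ⟨t2, t1⟩
  · -- 1 1
    obtain ⟨p1, p2⟩ := B1 (by omega)
    obtain ⟨p3, p4⟩ := C1 (by omega)
    obtain ⟨q1, q2⟩ := B2 (by omega)
    obtain ⟨q3, q4⟩ := C2 (by omega)
    have i1 : (u : ℝ) + v < u' + v' + 1 := by linarith
    have i2 : (u' : ℝ) + v' < u + v + 1 := by linarith
    have i3 : (v : ℝ) < v' + 1 := by linarith
    have i4 : (v' : ℝ) < v + 1 := by linarith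
    norm_cast at i1 i2 i3 i4
    omega
  · -- 1 2
    exfalso
    obtain ⟨p1, p2⟩ := B1 (by omega)
    obtain ⟨p3, p4⟩ := C1 (by omega)
    obtain ⟨q1, q2⟩ := A2 (by omega)
    obtain ⟨q3, q4⟩ := C2 (by omega)
    have i1 : (u : ℝ) + v < u' + v' + 1 := by linarith
    have i2 : (u' : ℝ) + v' < u + v + 1 := by linarith
    have i3 : (u' : ℝ) < u + 1 := by linarith
    have i4 : (u : ℝ) < u' + 2 := by linarith
    norm_cast at i1 i2 i3 i4
    have hv : u' = u ∨ u' + 1 = u := by omega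
    rcases hv with rfl | rfl
    · have : v = v' := by omega
      subst this
      omega
    · have : v' = v + 1 := by omega
      subst this
      exact h.no12 _ _ ⟨t1, t2⟩
  · -- 2 0
    exfalso
    obtain ⟨p1, p2⟩ := A2 (by omega)
    obtain ⟨p3, p4⟩ := B2 (by omega)
    obtain ⟨q1, q2⟩ := A1 (by omega)
    obtain ⟨q3, q4⟩ := C1 (by omega)
    have i1 : (u' : ℝ) < u + 1 := by linarith
    have i2 : (u : ℝ) < u' + 1 := by linarith
    have i3 : (u' : ℝ) + v' < u + v + 1 := by linarith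
    have i4 : (u : ℝ) + v < u' + v' + 2 := by linarith
    norm_cast at i1 i2 i3 i4
    have hv : u = u' := by omega
    subst hv
    have : v = v' ∨ v = v' + 1 := by omega
    rcases this with rfl | rfl
    · omega
    · exact h.no02 _ _ ⟨t2, t1⟩
  · -- 2 1
    exfalso
    obtain ⟨p1, p2⟩ := B2 (by omega)
    obtain ⟨p3, p4⟩ := C2 (by omega)
    obtain ⟨q1, q2⟩ := A1 (by omega)
    obtain ⟨q3, q4⟩ := C1 (by omega)
    have i1 : (u' : ℝ) + v' < u + v + 1 := by linarith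
    have i2 : (u : ℝ) + v < u' + v' + 1 := by linarith
    have i3 : (u : ℝ) < u' + 1 := by linarith
    have i4 : (u' : ℝ) < u + 2 := by linarith
    norm_cast at i1 i2 i3 i4
    have hv : u = u' ∨ u + 1 = u' := by omega
    rcases hv with rfl | rfl
    · have : v = v' := by omega
      subst this
      omega
    · have : v = v' + 1 := by omega
      subst this
      exact h.no12 _ _ ⟨t2, t1⟩
  · -- 2 2
    obtain ⟨p1, p2⟩ := A1 (by omega)
    obtain ⟨p3, p4⟩ := C1 (by omega)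
    obtain ⟨q1, q2⟩ := A2 (by omega)
    obtain ⟨q3, q4⟩ := C2 (by omega)
    have i1 : (u : ℝ) + v < u' + v' + 1 := by linarith
    have i2 : (u' : ℝ) + v' < u + v + 1 := by linarith
    have i3 : (u : ℝ) < u' + 1 := by linarith
    have i4 : (u' : ℝ) < u + 1 := by linarith
    norm_cast at i1 i2 i3 i4
    omega

lemma tiling_disjoint {τ : ℤ → ℤ → ℕ} (h : Good τ) :
    (Tiling τ).Pairwise (fun A B => Disjoint (interior A) (interior B)) := by
  rintro A ⟨u, v, rfl⟩ B ⟨u', v', rfl⟩ hne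
  rw [Set.disjoint_left]
  intro p hp hp'
  obtain ⟨rfl, rfl⟩ := otile_unique h (interior_tile hp) (interior_tile hp')
  exact hne rfl

/-! ### Symmetries -/

def Sym (τ : ℤ → ℤ → ℕ) : Set (E ≃ᵢ E) :=
  {g : E ≃ᵢ E | (fun A : Set E => (⇑g) '' A) '' (Tiling τ) = Tiling τ}

def M (τ : ℤ → ℤ → ℕ) (x y : ℤ) : Prop := cenx τ (x / 2) (y / 2) = x ∧ ceny τ (x / 2) (y / 2) = y

instance (τ : ℤ → ℤ → ℕ) (x y : ℤ) : Decidable (M τ x y) := by unfold M; infer_instance

lemma M_iff {τ : ℤ → ℤ → ℕ} {x y : ℤ} : M τ x y ↔ ∃ u v, x = cenx τ u v ∧ y = ceny τ u v := by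
  constructor
  · rintro ⟨h1, h2⟩
    exact ⟨_, _, h1.symm, h2.symm⟩
  · rintro ⟨u, v, rfl, rfl⟩
    have e1 : cenx τ u v / 2 = u := by unfold cenx; split_ifs <;> omega
    have e2 : ceny τ u v / 2 = v := by unfold ceny; split_ifs <;> omega
    unfold M
    rw [e1, e2]
    exact ⟨rfl, rfl⟩

lemma M_odd {τ : ℤ → ℤ → ℕ} {x y : ℤ} (h : M τ x y) : ¬ (x % 2 = 0 ∧ y % 2 = 0) := by
  obtain ⟨u, v, rfl, rfl⟩ := M_iff.1 h
  exact cen_odd τ u v

lemma mem_Tiling_iff {τ : ℤ → ℤ → ℕ} {x y : ℤ} (h : ¬ (x % 2 = 0 ∧ y % 2 = 0)) :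
    tile x y ∈ Tiling τ ↔ M τ x y := by
  rw [M_iff]
  constructor
  · rintro ⟨u, v, e⟩
    obtain ⟨h1, h2⟩ := tile_inj h (cen_odd τ u v) e
    exact ⟨u, v, h1, h2⟩
  · rintro ⟨u, v, rfl, rfl⟩
    exact ⟨u, v, rfl⟩

def Pres (τ : ℤ → ℤ → ℕ) (k : Fin 12) (s t : ℤ) : Prop :=
  ∀ u v, M τ (cx k s (cenx τ u v) (ceny τ u v)) (cy k t (cenx τ u v) (ceny τ u v))

lemma odd_image {k : Fin 12} {s t x y : ℤ} (h : ¬ (x % 2 = 0 ∧ y % 2 = 0)) :
    ¬ (cx k s x y % 2 = 0 ∧ cy k t x y % 2 = 0) := by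
  unfold cx cy
  fin_cases k <;> simp only [A11, A12, A21, A22] <;> dsimp <;> omega

lemma sym_pres {τ : ℤ → ℤ → ℕ} {k : Fin 12} {s t : ℤ} (h : isoOf k s t ∈ Sym τ) :
    Pres τ k s t := by
  intro u v
  have h1 : tile (cenx τ u v) (ceny τ u v) ∈ Tiling τ := ⟨u, v, rfl⟩
  have h2 : (isoOf k s t) '' tile (cenx τ u v) (ceny τ u v) ∈ Tiling τ := by
    have : (fun A : Set E => (⇑(isoOf k s t)) '' A) '' (Tiling τ) = Tiling τ := h
    rw [← this]
    exact ⟨_, h1, rfl⟩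
  rw [image_tile] at h2
  exact (mem_Tiling_iff (odd_image (cen_odd τ u v))).1 h2

lemma pres_maps {τ : ℤ → ℤ → ℕ} {k : Fin 12} {s t : ℤ} (h : Pres τ k s t) {A : Set E}
    (hA : A ∈ Tiling τ) : isoOf k s t '' A ∈ Tiling τ := by
  obtain ⟨u, v, rfl⟩ := hA
  rw [image_tile]
  exact (mem_Tiling_iff (odd_image (cen_odd τ u v))).2 (h u v)

lemma pres_sym {τ : ℤ → ℤ → ℕ} {k : Fin 12} {s t : ℤ} (h : Pres τ k s t)
    (h' : Pres τ (invk k) (invs k s t) (invt k s t)) : isoOf k s t ∈ Sym τ := by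
  change (fun A : Set E => (⇑(isoOf k s t)) '' A) '' (Tiling τ) = Tiling τ
  apply Set.Subset.antisymm
  · rintro _ ⟨A, hA, rfl⟩
    exact pres_maps h hA
  · intro A hA
    refine ⟨(isoOf (invk k) (invs k s t) (invt k s t)) '' A, pres_maps h' hA, ?_⟩
    change isoOf k s t '' (isoOf (invk k) (invs k s t) (invt k s t) '' A) = A
    rw [← Set.image_comp]
    have : (isoOf k s t : E → E) ∘ (isoOf (invk k) (invs k s t) (invt k s t)) = id := by
      ext1 z
      exact actF_inv_right k s t z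
    rw [this, Set.image_id]

lemma sym_isoOf {τ : ℤ → ℤ → ℕ} {g : E ≃ᵢ E} (h : g ∈ Sym τ) : ∃ k s t, g = isoOf k s t := by
  have h1 : tile (cenx τ 0 0) (ceny τ 0 0) ∈ Tiling τ := ⟨0, 0, rfl⟩
  have h2 : g '' tile (cenx τ 0 0) (ceny τ 0 0) ∈ Tiling τ := by
    have : (fun A : Set E => (⇑g) '' A) '' (Tiling τ) = Tiling τ := h
    rw [← this]
    exact ⟨_, h1, rfl⟩
  obtain ⟨u, v, e⟩ := h2
  exact exists_isoOf_of_tile g (cen_odd τ 0 0) (cen_odd τ u v) e

lemma one_mem_Sym (τ : ℤ → ℤ → ℕ) : (1 : E ≃ᵢ E) ∈ Sym τ := by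
  change (fun A : Set E => (⇑(1 : E ≃ᵢ E)) '' A) '' (Tiling τ) = Tiling τ
  have : (fun A : Set E => (⇑(1 : E ≃ᵢ E)) '' A) = id := by
    ext1 A
    change (id : E → E) '' A = A
    rw [Set.image_id]
  rw [this, Set.image_id]

lemma mul_mem_Sym {τ : ℤ → ℤ → ℕ} {g h : E ≃ᵢ E} (hg : g ∈ Sym τ) (hh : h ∈ Sym τ) :
    g * h ∈ Sym τ := by
  have hg' : (fun A : Set E => (⇑g) '' A) '' (Tiling τ) = Tiling τ := hg
  have hh' : (fun A : Set E => (⇑h) '' A) '' (Tiling τ) = Tiling τ := hh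
  change (fun A : Set E => (⇑(g * h)) '' A) '' (Tiling τ) = Tiling τ
  have : (fun A : Set E => (⇑(g * h)) '' A) =
      (fun A : Set E => (⇑g) '' A) ∘ (fun A : Set E => (⇑h) '' A) := by
    ext1 A
    change ((g : E → E) ∘ h) '' A = g '' (h '' A)
    rw [Set.image_comp]
  rw [this, Set.image_comp, hh', hg']

end Pool.Agent.H77.Loz
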