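import Pool.Agent.H77.Loz.Data

set_option autoImplicit false

namespace Pool.Agent.H77.Loz

/-- the group of all isometries of the triangular lattice, in coordinates -/
@[ext] structure Trip where
  k : Fin 12
  s : ℤ
  t : ℤ
deriving DecidableEq

instance : Mul Trip := ⟨fun x y => ⟨mulk x.k y.k, A11 x.k * y.s + A12 x.k * y.t + x.s,
  A21 x.k * y.s + A22 x.k * y.t + x.t⟩⟩
instance : One Trip := ⟨⟨0, 0, 0⟩⟩
instance : Inv Trip := ⟨fun x => ⟨invk x.k, invs x.k x.s x.t, invt x.k x.s x.t⟩⟩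

lemma Trip.mul_mk (k l : Fin 12) (s t s' t' : ℤ) :
    (⟨k, s, t⟩ : Trip) * ⟨l, s', t'⟩ = ⟨mulk k l, A11 k * s' + A12 k * t' + s,
      A21 k * s' + A22 k * t' + t⟩ := rfl
lemma Trip.one_mk : (1 : Trip) = ⟨0, 0, 0⟩ := rfl

noncomputable def toIso (x : Trip) : E ≃ᵢ E := isoOf x.k x.s x.t

lemma toIso_mul (x y : Trip) : toIso (x * y) = toIso x * toIso y := (isoOf_mul _ _ _ _ _ _).symm
lemma toIso_one : toIso 1 = 1 := isoOf_one
lemma toIso_inv (x : Trip) : toIso x⁻¹ = (toIso x)⁻¹ := (isoOf_inv _ _ _).symm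
lemma toIso_inj {x y : Trip} (h : toIso x = toIso y) : x = y := by
  obtain ⟨h1, h2, h3⟩ := isoOf_inj.1 h
  exact Trip.ext h1 h2 h3

instance : Group Trip := Group.ofLeftAxioms
  (fun a b c => toIso_inj (by rw [toIso_mul, toIso_mul, toIso_mul, toIso_mul, mul_assoc]))
  (fun a => toIso_inj (by rw [toIso_mul, toIso_one, one_mul]))
  (fun a => toIso_inj (by rw [toIso_mul, toIso_inv, inv_mul_cancel, toIso_one]))

noncomputable def toIsoHom : Trip →* (E ≃ᵢ E) where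
  toFun := toIso
  map_one' := toIso_one
  map_mul' := toIso_mul

lemma inv_mem_Sym {τ : ℤ → ℤ → ℕ} {g : E ≃ᵢ E} (hg : g ∈ Sym τ) : g⁻¹ ∈ Sym τ := by
  have hg' : (fun A : Set E => (⇑g) '' A) '' (Tiling τ) = Tiling τ := hg
  change (fun A : Set E => (⇑(g⁻¹)) '' A) '' (Tiling τ) = Tiling τ
  conv_lhs => rw [← hg']
  rw [← Set.image_comp]
  have : ((fun A : Set E => (⇑(g⁻¹)) '' A) ∘ (fun A : Set E => (⇑g) '' A)) = id := by
    ext1 A
    change (⇑(g⁻¹)) '' ((⇑g) '' A) = A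
    rw [← Set.image_comp]
    have : (⇑(g⁻¹) : E → E) ∘ (⇑g) = id := by
      ext1 z
      change ((g⁻¹ * g : E ≃ᵢ E) : E → E) z = z
      rw [inv_mul_cancel]; rfl
    rw [this, Set.image_id]
  rw [this, Set.image_id]

/-- the symmetry group as a subgroup -/
def SymG (τ : ℤ → ℤ → ℕ) : Subgroup (E ≃ᵢ E) where
  carrier := Sym τ
  mul_mem' := mul_mem_Sym
  one_mem' := one_mem_Sym τ
  inv_mem' := inv_mem_Sym

/-- the same group in coordinates -/
noncomputable def H (τ : ℤ → ℤ → ℕ) : Subgroup Trip := (SymG τ).comap toIsoHom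

lemma mem_H {τ : ℤ → ℤ → ℕ} {x : Trip} : x ∈ H τ ↔ isoOf x.k x.s x.t ∈ Sym τ := Iff.rfl

noncomputable def HtoSym (τ : ℤ → ℤ → ℕ) : H τ →* SymG τ where
  toFun x := ⟨toIso x.1, x.2⟩
  map_one' := Subtype.ext toIso_one
  map_mul' x y := Subtype.ext (toIso_mul x.1 y.1)

noncomputable def HequivSym (τ : ℤ → ℤ → ℕ) : H τ ≃* SymG τ :=
  MulEquiv.ofBijective (HtoSym τ) (by
    constructor
    · intro x y hxy
      apply Subtype.ext
      exact toIso_inj (congrArg Subtype.val hxy)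
    · rintro ⟨g, hg⟩
      obtain ⟨k, s, t, rfl⟩ := sym_isoOf hg
      exact ⟨⟨⟨k, s, t⟩, hg⟩, rfl⟩)

end Pool.Agent.H77.Loz
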